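import Pool.Agent.H55.FreeIdx.CoreI
import Pool.Agent.H54.TSG.ParamsG

/-!
Choice of parameters for the lower bound for adaptive probes with a free index
(MP_e016b3_lc): a version of `Pool.H54.TSG.main_b` for a family of schemes.
-/

namespace Pool.Agent.H55.FreeIdx

open Finset Function Pool.H54.TSUM Pool.H54.TSG

theorem main_i (e x C : ℕ) (hx : 3 ≤ x) : ∃ c₀ θ : ℕ, 0 < θ ∧ ∀ c₁ : ℕ, ∃ b₀ : ℕ,
    ∀ b U W n S I : ℕ,
    b₀ ≤ b → b ^ c₀ ≤ U → (1 ≤ e → U ≤ b ^ c₁) → W ≤ U * b ^ C → 0 < W →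
    n = b ^ ((e + 1) * x) → S = b ^ ((e + 1) * x - 1) * b ^ x → I ^ θ ≤ b ^ n →
    ∀ P : Fin I → Pool.H54.TSG.Scheme S W,
    (∀ A : Arr n U, ∃ (i : Fin I) (M : Fin S → Fin W), CorrectT (P i) (e + 2) A M) → False := by
  obtain ⟨κ, hκ⟩ : ∃ κ, κ = (e + 1) * x := ⟨_, rfl⟩
  rw [← hκ]
  have hκx : κ = e * x + x := by rw [hκ]; ring
  have hκ3 : 3 ≤ κ := by rw [hκx]; omega
  clear hκ
  obtain ⟨p, hp⟩ : ∃ p, p = 6 * κ + 1 := ⟨_, rfl⟩
  obtain ⟨q, hq⟩ : ∃ q, q = 48 * p := ⟨_, rfl⟩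
  obtain ⟨m₀, hm₀⟩ : ∃ m₀, m₀ = 3 * κ + 2 := ⟨_, rfl⟩
  obtain ⟨a, ha⟩ : ∃ a, a = 2 * 22 ^ e := ⟨_, rfl⟩
  obtain ⟨C₂, hC₂⟩ : ∃ C₂, C₂ = 2 * (12 * p) * m₀ + (12 * p) ^ 2 + 1 := ⟨_, rfl⟩
  obtain ⟨y1, hy1⟩ : ∃ y, y = 24 * p * (14 * κ + C + 2) := ⟨_, rfl⟩
  obtain ⟨y2, hy2⟩ : ∃ y, y = 1 + (2 * κ + C) * (q + 1) + 4 * κ * q := ⟨_, rfl⟩
  obtain ⟨c₀, hc₀⟩ : ∃ c₀, c₀ = y1 + y2 + (κ + 1) := ⟨_, rfl⟩
  obtain ⟨Z, hZ⟩ : ∃ Z, Z = 8 * (96 * p) * 400 ^ e := ⟨_, rfl⟩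
  have hZpos : 0 < Z := by rw [hZ, hp]; positivity
  refine ⟨c₀, 2 * Z, by omega, fun c₁ => ?_⟩
  obtain ⟨c₃, hc₃⟩ : ∃ c₃, c₃ = 2 * κ + c₁ + C := ⟨_, rfl⟩
  obtain ⟨z1, hz1⟩ : ∃ z, z = (2 * a) ^ p * ((80 * C₂) ^ (12 * p) * 216) := ⟨_, rfl⟩
  obtain ⟨z2, hz2⟩ : ∃ z, z = a * (4 * (q - 1) ^ 2 + 40) := ⟨_, rfl⟩
  obtain ⟨z3, hz3⟩ : ∃ z, z = 80 * m₀ * 22 ^ e := ⟨_, rfl⟩
  obtain ⟨z4, hz4⟩ : ∃ z, z = 2 * Z * (4 * e * c₃ + 2) := ⟨_, rfl⟩
  refine ⟨36 + (e + 5) + (z1 + 1) + z2 + z3 + z4, ?_⟩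
  intro b U W n S I hb hU hU1 hW hWpos hn hS hI P hP
  have hapos : 0 < a := by rw [ha]; positivity
  have hb1 : 36 ≤ b := by omega
  have hb2 : e + 4 < b := by omega
  have hb3 : z1 < b := by omega
  have hb4 : z2 ≤ b := by omega
  have hb5 : z3 ≤ b := by omega
  have hb6 : z4 ≤ b := by omega
  clear hb
  have hbpos : 0 < b := by omega
  have hppos : 0 < p := by omega
  have hm₀pos : 0 < m₀ := by omega
  -- the quantities
  obtain ⟨h, hh⟩ : ∃ h, h = b ^ (κ - 1) := ⟨_, rfl⟩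
  obtain ⟨β, hβ⟩ : ∃ β, β = b ^ x := ⟨_, rfl⟩
  have hSh : S = h * β := by rw [hS, hh, hβ]
  have hnh : n = h * b := by
    rw [hn, hh, ← pow_succ]; congr 1; omega
  have hhpos : 0 < h := hh ▸ Nat.pow_pos hbpos
  have hβpos : 0 < β := hβ ▸ Nat.pow_pos hbpos
  have hSpos : 0 < S := hSh ▸ Nat.mul_pos hhpos hβpos
  have hnpos : 0 < n := hn ▸ Nat.pow_pos hbpos
  have hUn : ∀ y, y ≤ c₀ → b ^ y ≤ U := fun y hy => (Nat.pow_le_pow_right hbpos hy).trans hU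
  have hUpos : 0 < U := lt_of_lt_of_le (Nat.pow_pos hbpos) hU
  have hS2 : S ≤ b ^ (2 * κ) := by
    rw [hS, ← pow_add]
    exact Nat.pow_le_pow_right hbpos (by omega)
  have hSW : S * W ≤ U * b ^ (2 * κ + C) := by
    calc S * W ≤ b ^ (2 * κ) * (U * b ^ C) := Nat.mul_le_mul hS2 hW
      _ = U * b ^ (2 * κ + C) := by rw [pow_add]; ring
  -- the root of U
  obtain ⟨K, hK1, hK2⟩ := exists_root (24 * p) (by omega) U
  have hKb : b ^ (14 * κ + C + 2) ≤ K := by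
    have h1 : (b ^ (14 * κ + C + 2)) ^ (24 * p) < (K + 1) ^ (24 * p) := by
      calc (b ^ (14 * κ + C + 2)) ^ (24 * p) = b ^ y1 := by
            rw [← pow_mul, hy1]; congr 1; ring
        _ ≤ U := hUn _ (by omega)
        _ < (K + 1) ^ (24 * p) := hK2
    exact Nat.lt_succ_iff.1 (lt_of_pow_lt_pow_left₀ _ (Nat.zero_le _) h1)
  have hKpos : 0 < K := lt_of_lt_of_le (Nat.pow_pos hbpos) hKb
  have hKq : U ^ 2 ≤ (K + 1) ^ q := by
    calc U ^ 2 ≤ ((K + 1) ^ (24 * p)) ^ 2 := Nat.pow_le_pow_left hK2.le 2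
      _ = (K + 1) ^ q := by rw [← pow_mul, hq]; congr 1; omega
  have hNb := num_b b κ C q n S W U K hn hSW hKq (hUn _ (by omega))
  have hNF := num_F b κ C p n S W U K hppos hb1 hn hSW hKb hK1
  clear hKb hKq hK1 hK2
  -- virtual blocks
  obtain ⟨rv, hrv⟩ : ∃ rv, rv = U / b ^ (κ + 1) := ⟨_, rfl⟩
  have hbκ : 0 < b ^ (κ + 1) := Nat.pow_pos hbpos
  have hrvpos : 0 < rv := hrv ▸ Nat.div_pos (hUn _ (by omega)) hbκ
  have hrv1 : rv * b ^ (κ + 1) ≤ U := hrv ▸ Nat.div_mul_le_self _ _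
  have hrv2 : U < 2 * rv * b ^ (κ + 1) := by
    have h1 := Nat.lt_div_mul_add (a := U) hbκ
    rw [← hrv] at h1
    have h2 : b ^ (κ + 1) ≤ rv * b ^ (κ + 1) := Nat.le_mul_of_pos_left _ hrvpos
    have h3 : 2 * rv * b ^ (κ + 1) = rv * b ^ (κ + 1) + rv * b ^ (κ + 1) := by ring
    rw [h3]
    exact lt_of_lt_of_le h1 (Nat.add_le_add_left h2 _)
  have hblocks : 2 * U ≤ rv * (4 * S) := by
    have h1 : b ^ (κ + 1) ≤ S := by
      rw [hS, ← pow_add]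
      exact Nat.pow_le_pow_right hbpos (by omega)
    calc 2 * U ≤ 2 * (2 * rv * b ^ (κ + 1)) := Nat.mul_le_mul_left _ hrv2.le
      _ ≤ 2 * (2 * rv * S) := Nat.mul_le_mul_left _ (Nat.mul_le_mul_left _ h1)
      _ = rv * (4 * S) := by ring
  -- heavy classes
  obtain ⟨κh, hκh⟩ : ∃ κh, κh = U / h := ⟨_, rfl⟩
  have hhU : h ≤ U := by rw [hh]; exact hUn _ (by omega)
  have hκhpos : 0 < κh := hκh ▸ Nat.div_pos hhU hhpos
  have hκh1 : κh * h ≤ U := hκh ▸ Nat.div_mul_le_self _ _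
  have hκh2 : U < 2 * κh * h := by
    have h1 := Nat.lt_div_mul_add (a := U) hhpos
    rw [← hκh] at h1
    have h2 : h ≤ κh * h := Nat.le_mul_of_pos_left _ hκhpos
    have h3 : 2 * κh * h = κh * h + κh * h := by ring
    rw [h3]
    exact lt_of_lt_of_le h1 (Nat.add_le_add_left h2 _)
  have hHs : 2 * U < (4 * h + 1) * κh := by
    calc 2 * U < 2 * (2 * κh * h) := Nat.mul_lt_mul_of_pos_left hκh2 (by norm_num)
      _ ≤ 2 * (2 * κh * h) + κh := Nat.le_add_right _ _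
      _ = (4 * h + 1) * κh := by ring
  have hτ : (κh / rv + 1) * m₀ ≤ 2 * b ^ 2 * m₀ := by
    refine Nat.mul_le_mul_right _ ?_
    have h1 : κh < (2 * b ^ 2) * rv := by
      have h2 : κh * h < ((2 * b ^ 2) * rv) * h := by
        calc κh * h ≤ U := hκh1
          _ < 2 * rv * b ^ (κ + 1) := hrv2
          _ = ((2 * b ^ 2) * rv) * h := by
            have h3 : b ^ (κ + 1) = b ^ 2 * h := by
              rw [hh, ← pow_add]; congr 1; omega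
            rw [h3]; ring
      exact Nat.lt_of_mul_lt_mul_right h2
    exact Nat.succ_le_of_lt ((Nat.div_lt_iff_lt_mul hrvpos).2 h1)
  -- union bound
  obtain ⟨H, hH⟩ : ∃ H, H = e * (4 * h) := ⟨_, rfl⟩
  obtain ⟨l, hl⟩ : ∃ l, l = n / (2 * Z) + 1 := ⟨_, rfl⟩
  obtain ⟨k, hk⟩ : ∃ k, k = l + (H * c₃ + 1) := ⟨_, rfl⟩
  have hIl : I ≤ b ^ l := by
    by_contra hcon
    rw [not_le] at hcon
    have h1 : b ^ n ≤ (b ^ l) ^ (2 * Z) := by
      rw [← pow_mul]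
      refine Nat.pow_le_pow_right hbpos ?_
      rw [hl, Nat.add_mul, Nat.one_mul]
      exact (Nat.lt_div_mul_add (by omega : 0 < 2 * Z)).le
    have h2 : (b ^ l) ^ (2 * Z) < I ^ (2 * Z) := Nat.pow_lt_pow_left hcon (by omega)
    omega
  have hunion0 : (S * W) ^ H * (e + 4) < b ^ (H * c₃ + 1) := by
    by_cases he : 1 ≤ e
    · have h1 : S * W ≤ b ^ c₃ := by
        calc S * W ≤ U * b ^ (2 * κ + C) := hSW
          _ ≤ b ^ c₁ * b ^ (2 * κ + C) := Nat.mul_le_mul_right _ (hU1 he)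
          _ = b ^ c₃ := by rw [← pow_add, hc₃]; congr 1; ring
      calc (S * W) ^ H * (e + 4) < (S * W) ^ H * b :=
            Nat.mul_lt_mul_of_pos_left hb2 (Nat.pow_pos (Nat.mul_pos hSpos hWpos))
        _ ≤ (b ^ c₃) ^ H * b := Nat.mul_le_mul_right _ (Nat.pow_le_pow_left h1 H)
        _ = b ^ (H * c₃ + 1) := by rw [← pow_mul, ← pow_succ, mul_comm c₃ H]
    · have he0 : e = 0 := by omega
      have hH0 : H = 0 := by rw [hH, he0, Nat.zero_mul]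
      rw [hH0, pow_zero, Nat.one_mul, Nat.zero_mul, Nat.zero_add, pow_one]
      exact hb2
  have hunion : I * (S * W) ^ H * (e + 4) < b ^ k := by
    calc I * (S * W) ^ H * (e + 4) = I * ((S * W) ^ H * (e + 4)) := Nat.mul_assoc _ _ _
      _ ≤ b ^ l * ((S * W) ^ H * (e + 4)) := Nat.mul_le_mul_right _ hIl
      _ < b ^ l * b ^ (H * c₃ + 1) := Nat.mul_lt_mul_of_pos_left hunion0 (Nat.pow_pos hbpos)
      _ = b ^ k := by rw [hk, ← pow_add]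
  have hB : 8 * ((k * (96 * p)) * 400 ^ e) ≤ n := by
    have h1 : 2 * Z * (H * c₃ + 2) ≤ n := by
      calc 2 * Z * (H * c₃ + 2) ≤ 2 * Z * ((4 * e * c₃ + 2) * h) := by
            refine Nat.mul_le_mul_left _ ?_
            calc H * c₃ + 2 = 4 * e * c₃ * h + 2 := by rw [hH]; ring
              _ ≤ 4 * e * c₃ * h + 2 * h := Nat.add_le_add_left (by omega) _
              _ = (4 * e * c₃ + 2) * h := by ring
        _ = h * z4 := by rw [hz4]; ring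
        _ ≤ h * b := Nat.mul_le_mul_left _ hb6
        _ = n := hnh.symm
    have h2 : 2 * Z * (n / (2 * Z)) ≤ n := Nat.mul_div_le _ _
    have h3 : 8 * ((k * (96 * p)) * 400 ^ e) = Z * k := by rw [hZ]; ring
    have h4 : 2 * (Z * k) = 2 * Z * (n / (2 * Z)) + 2 * Z * (H * c₃ + 2) := by
      rw [hk, hl]; ring
    omega
  have hτβ : ∀ t < e, (16 + 32 * (2 * b ^ 2 * m₀)) * β * (22 * β) ^ t ≤ n := by
    intro t ht
    have h1 : 16 + 32 * (2 * b ^ 2 * m₀) ≤ 80 * m₀ * b ^ 2 := by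
      have h2 : 1 ≤ m₀ * b ^ 2 := Nat.mul_pos hm₀pos (Nat.pow_pos hbpos)
      calc 16 + 32 * (2 * b ^ 2 * m₀) ≤ 16 * (m₀ * b ^ 2) + 32 * (2 * b ^ 2 * m₀) :=
            Nat.add_le_add_right (by omega) _
        _ = 80 * m₀ * b ^ 2 := by ring
    have h2 : (22 * β) ^ t = 22 ^ t * b ^ (x * t) := by
      rw [mul_pow, hβ, ← pow_mul]
    have h3 : 1 + (2 + (x + x * t)) ≤ κ := by
      have h4 : x * (t + 1) ≤ x * e := Nat.mul_le_mul_left _ ht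
      have h5 : x * e = e * x := mul_comm _ _
      have h6 : x * (t + 1) = x + x * t := by ring
      omega
    calc (16 + 32 * (2 * b ^ 2 * m₀)) * β * (22 * β) ^ t
        ≤ (80 * m₀ * b ^ 2) * β * (22 ^ t * b ^ (x * t)) := by
          rw [h2]; exact Nat.mul_le_mul_right _ (Nat.mul_le_mul_right _ h1)
      _ ≤ (80 * m₀ * b ^ 2) * β * (22 ^ e * b ^ (x * t)) :=
          Nat.mul_le_mul_left _ (Nat.mul_le_mul_right _
            (Nat.pow_le_pow_right (by norm_num) ht.le))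
      _ = z3 * (b ^ 2 * (b ^ x * b ^ (x * t))) := by rw [hβ, hz3]; ring
      _ ≤ b * (b ^ 2 * (b ^ x * b ^ (x * t))) := Nat.mul_le_mul_right _ hb5
      _ = b ^ (1 + (2 + (x + x * t))) := by
          rw [pow_add b 1, pow_add b 2, pow_add b x, pow_one]
      _ ≤ b ^ κ := Nat.pow_le_pow_right hbpos h3
      _ = n := hn.symm
  -- density
  obtain ⟨ω, hω⟩ : ∃ ω, ω = b / a := ⟨_, rfl⟩
  have hω1 : 4 * (q - 1) ^ 2 + 40 ≤ ω := by
    rw [hω, Nat.le_div_iff_mul_le hapos, mul_comm, ← hz2]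
    exact hb4
  have hωpos : 0 < ω := by omega
  have hωS : S * ω * (2 * (22 * β) ^ e) ≤ n ^ 2 := by
    have h1 : a * ω ≤ b := hω ▸ Nat.mul_div_le _ _
    have h2 : (22 * β) ^ e = 22 ^ e * b ^ (x * e) := by
      rw [mul_pow, hβ, ← pow_mul]
    have h3 : κ - 1 + x + x * e + 1 = κ * 2 := by
      have h5 : x * e = e * x := mul_comm _ _
      omega
    calc S * ω * (2 * (22 * β) ^ e) = (S * b ^ (x * e)) * (a * ω) := by
          rw [h2, ha]; ring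
      _ ≤ (S * b ^ (x * e)) * b := Nat.mul_le_mul_left _ h1
      _ = b ^ (κ - 1 + x + x * e + 1) := by
          rw [hS, ← pow_add, ← pow_add, ← pow_succ]
      _ = n ^ 2 := by rw [hn, ← pow_mul, h3]
  have hnum : (80 * (2 * (12 * p) * m₀ + (12 * p) ^ 2 + 1)) ^ (12 * p) * (216 * S ^ 3) <
      ω ^ p := by
    rw [← hC₂]
    have h1 : b ≤ 2 * a * ω := by
      have h2 := Nat.lt_div_mul_add (a := b) hapos
      rw [← hω] at h2
      have h3 : a ≤ ω * a := Nat.le_mul_of_pos_left _ hωpos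
      calc b ≤ ω * a + a := h2.le
        _ ≤ ω * a + ω * a := Nat.add_le_add_left h3 _
        _ = 2 * a * ω := by ring
    have h2 : S ^ 3 ≤ b ^ (6 * κ) := by
      calc S ^ 3 ≤ (b ^ (2 * κ)) ^ 3 := Nat.pow_le_pow_left hS2 3
        _ = b ^ (6 * κ) := by rw [← pow_mul]; congr 1; ring
    obtain ⟨u1, hu1⟩ : ∃ u, u = (80 * C₂) ^ (12 * p) := ⟨_, rfl⟩
    obtain ⟨u2, hu2⟩ : ∃ u, u = (2 * a) ^ p := ⟨_, rfl⟩
    rw [← hu1]
    rw [← hu1, ← hu2] at hz1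
    have h3 : (u1 * (216 * S ^ 3)) * u2 < ω ^ p * u2 := by
      calc (u1 * (216 * S ^ 3)) * u2
          ≤ (u1 * (216 * b ^ (6 * κ))) * u2 :=
            Nat.mul_le_mul_right _ (Nat.mul_le_mul_left _ (Nat.mul_le_mul_left _ h2))
        _ = z1 * b ^ (6 * κ) := by rw [hz1]; ring
        _ < b * b ^ (6 * κ) := Nat.mul_lt_mul_of_pos_right hb3 (Nat.pow_pos hbpos)
        _ = b ^ p := by rw [hp, pow_succ, mul_comm]
        _ ≤ (2 * a * ω) ^ p := Nat.pow_le_pow_left h1 p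
        _ = ω ^ p * u2 := by rw [mul_pow, mul_comm, hu2]
    exact Nat.lt_of_mul_lt_mul_right h3
  have hNd : b * ((2 * n * (5 * S)) * (n ^ m₀ * rv ^ m₀)) ≤ U ^ m₀ := by
    have h1 : n * rv * b ≤ U := by
      calc n * rv * b = rv * b ^ (κ + 1) := by rw [hn, pow_succ]; ring
        _ ≤ U := hrv1
    have h2 : b * (2 * n * (5 * S)) ≤ b ^ m₀ := by
      calc b * (2 * n * (5 * S)) = 10 * (b * (n * S)) := by ring
        _ ≤ b * (b * (n * b ^ (2 * κ))) :=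
          Nat.mul_le_mul (by omega) (Nat.mul_le_mul_left _ (Nat.mul_le_mul_left _ hS2))
        _ = b ^ m₀ := by
          rw [hn, ← pow_add, ← pow_succ', ← pow_succ', hm₀]; congr 1; ring
    calc b * ((2 * n * (5 * S)) * (n ^ m₀ * rv ^ m₀))
        = (b * (2 * n * (5 * S))) * (n * rv) ^ m₀ := by rw [mul_pow]; ring
      _ ≤ b ^ m₀ * (n * rv) ^ m₀ := Nat.mul_le_mul_right _ h2
      _ = (n * rv * b) ^ m₀ := by rw [← mul_pow, mul_comm b]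
      _ ≤ U ^ m₀ := Nat.pow_le_pow_left h1 m₀
  have hv1 : 2 * q ≤ 96 * p := by omega
  have hv2 : 2 * m₀ ≤ 96 * p := by omega
  have hv3 : 24 * p ≤ 96 * p := by omega
  have hτ0 : 0 < 2 * b ^ 2 * m₀ :=
    Nat.mul_pos (Nat.mul_pos (by norm_num) (Nat.pow_pos hbpos)) hm₀pos
  exact coreI P e hP K q p m₀ rv κh (4 * h) h β (2 * b ^ 2 * m₀) b k (96 * p) ω H
    hUpos hKpos hWpos hSpos hnpos hppos hSh hβpos hhpos (by omega) hH.ge
    hv1 hv2 hv3 hrvpos hblocks hHs hτ0 hτ hB hτβ hωS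
    (by omega) (by omega) hnum hNb hNF hNd hunion


end Pool.Agent.H55.FreeIdx
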