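import Pool.Agent.H55.FreeIdx.Defs
import Pool.Agent.H55.FreeIdx.ParamsI

/-!
Adaptive probes with a free index (MP_e016b3_lc).
-/

namespace Pool.Agent.H55.FreeIdx

open Pool.H54.TSG Pool.H54.TSUM

/-- the scheme for one value of the index, with a padded memory -/
def fixIdx {H S W : ℕ} (P : Scheme H S W) (h : Fin H) (S' : ℕ) (hS : S ≤ S') :
    Pool.H54.TSG.Scheme S' W where
  addr := fun z l => Fin.castLE hS (P.addr h z l)
  ans := P.ans h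

theorem fixIdx_reads {H S W : ℕ} (P : Scheme H S W) (h : Fin H) (S' : ℕ) (hS : S ≤ S')
    (M : Fin S → Fin W) (M' : Fin S' → Fin W) (hM : ∀ c, M' (Fin.castLE hS c) = M c) (z t : ℕ) :
    (fixIdx P h S' hS).reads M' z t = P.reads h M z t := by
  induction t with
  | zero => rfl
  | succ t ih =>
    show M' (Fin.castLE hS (P.addr h z ((fixIdx P h S' hS).reads M' z t))) ::
      (fixIdx P h S' hS).reads M' z t = M (P.addr h z (P.reads h M z t)) :: P.reads h M z t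
    rw [ih, hM]

/-- restriction to shorter arrays and padding of the memory -/
theorem transferI {H S W n U : ℕ} (P : Scheme H S W) (T : ℕ)
    (hP : ∀ A B : Fin n → Fin U, ∃ (h : Fin H) (M : Fin S → Fin W),
      ∀ z : ℕ, P.run T h M z = true ↔ IsSum A B z) (S' n' : ℕ)
    (hS : S ≤ S') (hn : n' ≤ n) (hn' : 0 < n') (A : Arr n' U) :
    ∃ (h : Fin H) (M : Fin S' → Fin W), CorrectT (fixIdx P h S' hS) T A M := by
  obtain ⟨i, M, hM⟩ := hP
    (fun a => if h : a.val < n' then A (Sum.inl ⟨a.val, h⟩) else A (Sum.inl ⟨0, hn'⟩))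
    (fun a => if h : a.val < n' then A (Sum.inr ⟨a.val, h⟩) else A (Sum.inr ⟨0, hn'⟩))
  refine ⟨i, fun c => if h : c.val < S then M ⟨c.val, h⟩ else M (P.addr i 0 []), fun z => ?_⟩
  have hrun : (fixIdx P i S' hS).run T
      (fun c => if h : c.val < S then M ⟨c.val, h⟩ else M (P.addr i 0 [])) z = P.run T i M z := by
    unfold Pool.H54.TSG.Scheme.run Scheme.run
    rw [fixIdx_reads P i S' hS M _ (fun c => by simp)]
    rfl
  rw [hrun, hM z]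
  constructor
  · rintro ⟨a, b, hab⟩
    have h1 : ∃ a' : Fin n', (if h : a.val < n' then A (Sum.inl ⟨a.val, h⟩)
        else A (Sum.inl ⟨0, hn'⟩)) = A (Sum.inl a') := by
      by_cases h : a.val < n'
      · exact ⟨⟨a.val, h⟩, by rw [dif_pos h]⟩
      · exact ⟨⟨0, hn'⟩, by rw [dif_neg h]⟩
    have h2 : ∃ b' : Fin n', (if h : b.val < n' then A (Sum.inr ⟨b.val, h⟩)
        else A (Sum.inr ⟨0, hn'⟩)) = A (Sum.inr b') := by
      by_cases h : b.val < n'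
      · exact ⟨⟨b.val, h⟩, by rw [dif_pos h]⟩
      · exact ⟨⟨0, hn'⟩, by rw [dif_neg h]⟩
    obtain ⟨a', ha'⟩ := h1
    obtain ⟨b', hb'⟩ := h2
    refine ⟨(a', b'), ?_⟩
    simp only [ha', hb'] at hab
    exact hab
  · rintro ⟨g, hg⟩
    refine ⟨⟨g.1.val, by have := g.1.isLt; omega⟩, ⟨g.2.val, by have := g.2.isLt; omega⟩, ?_⟩
    have h1 : g.1.val < n' := g.1.isLt
    have h2 : g.2.val < n' := g.2.isLt
    simp only [dif_pos h1, dif_pos h2]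
    exact hg

/-- `T` adaptive probes and a free index with `n ^ (η n)` values. -/
theorem adaptive : ∀ T : ℕ, 2 ≤ T → ∀ ε : ℝ, 0 < ε → ∀ C : ℕ, ∃ (c₀ : ℕ) (η : ℝ), 0 < η ∧
    ∀ c₁ : ℕ, ∃ n₀ : ℕ, ∀ n U W S H : ℕ, n₀ ≤ n → n ^ c₀ ≤ U → (3 ≤ T → U ≤ n ^ c₁) →
    W ≤ U * n ^ C → (H : ℝ) ≤ (n : ℝ) ^ (η * n) →
    Solvable n U S W H T → (n : ℝ) ^ (1 + 1 / ((T : ℝ) - 1) - ε) < S := by
  intro T hT ε hε C
  obtain ⟨e, rfl⟩ : ∃ e, T = e + 2 := ⟨T - 2, by omega⟩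
  obtain ⟨x₀, hx₀⟩ := exists_nat_ge (2 / ε)
  obtain ⟨x, hx⟩ : ∃ x, x = x₀ + 3 := ⟨_, rfl⟩
  obtain ⟨κ, hκ⟩ : ∃ κ, κ = (e + 1) * x := ⟨_, rfl⟩
  have hκpos : 0 < κ := by rw [hκ]; exact Nat.mul_pos (by omega) (by omega)
  have hκx : x ≤ κ := by rw [hκ]; exact Nat.le_mul_of_pos_left _ (by omega)
  obtain ⟨c₀, θ, hθ, hmain⟩ := main_i e x (2 * κ * C) (by omega)
  have hDpos : (0 : ℝ) < ((2 * κ * θ * 2 ^ κ : ℕ) : ℝ) := by
    have : 0 < 2 * κ * θ * 2 ^ κ := by positivity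
    exact_mod_cast this
  refine ⟨c₀, 1 / ((2 * κ * θ * 2 ^ κ : ℕ) : ℝ), by positivity, fun c₁ => ?_⟩
  obtain ⟨b₀, hmain⟩ := hmain (2 * κ * c₁)
  obtain ⟨y₀, hy₀⟩ : ∃ y₀ : ℕ, y₀ = 2 ^ (κ + x) := ⟨_, rfl⟩
  refine ⟨(b₀ + y₀ + 2) ^ κ, ?_⟩
  rintro n U W S H hn hU hU1 hW hH ⟨P, hP⟩
  by_contra hcon
  rw [not_lt] at hcon
  obtain ⟨b, hb1, hb2⟩ := exists_root κ hκpos n
  have hb : b₀ + y₀ + 2 ≤ b := by
    have h1 : (b₀ + y₀ + 2) ^ κ < (b + 1) ^ κ := lt_of_le_of_lt hn hb2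
    exact Nat.lt_succ_iff.1 (lt_of_pow_lt_pow_left₀ _ (Nat.zero_le _) h1)
  have hbpos : 0 < b := by omega
  have hb3 : n ≤ (2 * b) ^ κ := hb2.le.trans (Nat.pow_le_pow_left (by omega) κ)
  have h2b : ∀ y, n ^ y ≤ b ^ (2 * κ * y) := by
    intro y
    calc n ^ y ≤ ((2 * b) ^ κ) ^ y := Nat.pow_le_pow_left hb3 y
      _ ≤ ((b * b) ^ κ) ^ y :=
        Nat.pow_le_pow_left (Nat.pow_le_pow_left (Nat.mul_le_mul_right _ (by omega)) κ) y
      _ = b ^ (2 * κ * y) := by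
        rw [← pow_two, ← pow_mul, ← pow_mul]; congr 1; ring
  have hbn : b ≤ n := by
    calc b = b ^ 1 := (pow_one b).symm
      _ ≤ b ^ κ := Nat.pow_le_pow_right hbpos hκpos
      _ ≤ n := hb1
  have hnpos : 0 < n := by omega
  have hUpos : 0 < U := lt_of_lt_of_le (Nat.pow_pos hnpos) hU
  -- the index is small
  have hHb : H ^ θ ≤ b ^ (b ^ κ) := by
    have hb1r : (1 : ℝ) ≤ b := by exact_mod_cast hbpos
    have hbr : (0 : ℝ) ≤ b := by linarith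
    have hnr : (0 : ℝ) ≤ n := Nat.cast_nonneg _
    have hκr : (0 : ℝ) < κ := by exact_mod_cast hκpos
    have hθr : (0 : ℝ) < θ := by exact_mod_cast hθ
    have hn1 : (n : ℝ) ≤ (b : ℝ) ^ ((2 * κ : ℕ) : ℝ) := by
      rw [Real.rpow_natCast]
      have := h2b 1
      rw [pow_one, mul_one] at this
      exact_mod_cast this
    have hn2 : (n : ℝ) ≤ (2 : ℝ) ^ κ * (b : ℝ) ^ κ := by
      rw [← mul_pow]
      exact_mod_cast hb3
    have hreal : ((H : ℝ)) ^ θ ≤ (b : ℝ) ^ (b ^ κ) := by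
      calc (H : ℝ) ^ θ ≤ ((n : ℝ) ^ (1 / ((2 * κ * θ * 2 ^ κ : ℕ) : ℝ) * n)) ^ θ :=
            pow_le_pow_left₀ (Nat.cast_nonneg _) hH θ
        _ = (n : ℝ) ^ (1 / ((2 * κ * θ * 2 ^ κ : ℕ) : ℝ) * n * θ) := by
            rw [← Real.rpow_natCast, ← Real.rpow_mul hnr]
        _ ≤ ((b : ℝ) ^ ((2 * κ : ℕ) : ℝ)) ^ (1 / ((2 * κ * θ * 2 ^ κ : ℕ) : ℝ) * n * θ) :=
            Real.rpow_le_rpow hnr hn1 (by positivity)
        _ = (b : ℝ) ^ (((2 * κ : ℕ) : ℝ) * (1 / ((2 * κ * θ * 2 ^ κ : ℕ) : ℝ) * n * θ)) := by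
            rw [← Real.rpow_mul hbr]
        _ ≤ (b : ℝ) ^ (((b ^ κ : ℕ)) : ℝ) := by
            refine Real.rpow_le_rpow_of_exponent_le hb1r ?_
            have h1 : ((2 * κ : ℕ) : ℝ) * (1 / ((2 * κ * θ * 2 ^ κ : ℕ) : ℝ) * n * θ) =
                n / 2 ^ κ := by
              push_cast
              field_simp
            rw [h1, div_le_iff₀ (by positivity)]
            push_cast
            linarith [hn2, mul_comm ((2 : ℝ) ^ κ) ((b : ℝ) ^ κ)]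
        _ = (b : ℝ) ^ (b ^ κ) := Real.rpow_natCast _ _
    exact_mod_cast hreal
  -- the memory is small
  have hSle : S ≤ b ^ (κ - 1) * b ^ x := by
    have hn1 : (1 : ℝ) ≤ n := by exact_mod_cast hnpos
    have hκr : (0 : ℝ) < κ := by exact_mod_cast hκpos
    have hxr : (3 : ℝ) ≤ x := by exact_mod_cast (by omega : 3 ≤ x)
    have hκε : 2 ≤ (κ : ℝ) * ε := by
      have h1 : 2 ≤ (x₀ : ℝ) * ε := by
        rw [div_le_iff₀ hε] at hx₀
        exact hx₀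
      have h2 : (x₀ : ℝ) ≤ κ := by exact_mod_cast (by omega : x₀ ≤ κ)
      nlinarith
    have hexp : (1 + 1 / (((e + 2 : ℕ) : ℝ) - 1) - ε) ≤ ((κ + x - 2 : ℕ) : ℝ) / κ := by
      have h1 : 1 / (((e + 2 : ℕ) : ℝ) - 1) = (x : ℝ) / κ := by
        have h2 : (((e + 2 : ℕ) : ℝ) - 1) = (e : ℝ) + 1 := by push_cast; ring
        rw [h2, hκ]
        push_cast
        have h3 : (x : ℝ) ≠ 0 := by linarith
        have h4 : (e : ℝ) + 1 ≠ 0 := by positivity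
        field_simp
      rw [h1, Nat.cast_sub (by omega), le_div_iff₀ hκr]
      push_cast
      have h5 : (x : ℝ) / κ * κ = x := div_mul_cancel₀ _ hκr.ne'
      nlinarith
    have hreal : (S : ℝ) ≤ ((2 * b : ℕ) : ℝ) ^ (κ + x - 2) := by
      calc (S : ℝ) ≤ (n : ℝ) ^ (1 + 1 / (((e + 2 : ℕ) : ℝ) - 1) - ε) := hcon
        _ ≤ (n : ℝ) ^ (((κ + x - 2 : ℕ) : ℝ) / κ) := Real.rpow_le_rpow_of_exponent_le hn1 hexp
        _ ≤ (((2 * b : ℕ) : ℝ) ^ κ) ^ (((κ + x - 2 : ℕ) : ℝ) / κ) := by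
          refine Real.rpow_le_rpow (by positivity) ?_ (by positivity)
          exact_mod_cast hb3
        _ = ((2 * b : ℕ) : ℝ) ^ (κ + x - 2) := by
          rw [← Real.rpow_natCast (((2 * b : ℕ) : ℝ)) κ, ← Real.rpow_mul (by positivity),
            mul_div_cancel₀ _ hκr.ne', Real.rpow_natCast]
    have hnat : S ≤ (2 * b) ^ (κ + x - 2) := by exact_mod_cast hreal
    calc S ≤ (2 * b) ^ (κ + x - 2) := hnat
      _ = 2 ^ (κ + x - 2) * b ^ (κ + x - 2) := mul_pow _ _ _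
      _ ≤ b * b ^ (κ + x - 2) := by
        refine Nat.mul_le_mul_right _ ?_
        have h1 : 2 ^ (κ + x - 2) ≤ 2 ^ (κ + x) := Nat.pow_le_pow_right (by norm_num) (by omega)
        rw [← hy₀] at h1
        omega
      _ = b ^ (κ - 1) * b ^ x := by
        rw [← pow_succ', ← pow_add]; congr 1; omega
  have hWpos : 0 < W := by
    obtain ⟨i, M, _⟩ := hP (fun _ => ⟨0, hUpos⟩) (fun _ => ⟨0, hUpos⟩)
    exact lt_of_le_of_lt (Nat.zero_le _) (M (P.addr i 0 [])).isLt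
  have hb0 : b₀ ≤ b := by omega
  refine hmain b U W (b ^ κ) (b ^ (κ - 1) * b ^ x) H hb0 ?_ ?_ ?_ hWpos (by rw [hκ])
    (by rw [hκ]) hHb (fun i => fixIdx P i _ hSle)
    (fun A => transferI P (e + 2) hP _ (b ^ κ) hSle hb1 (Nat.pow_pos hbpos) A)
  · exact (Nat.pow_le_pow_left hbn c₀).trans hU
  · exact fun he => (hU1 (by omega)).trans (h2b c₁)
  · exact hW.trans (Nat.mul_le_mul_left _ (h2b C))

end Pool.Agent.H55.FreeIdx
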