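import Pool.Agent.H54.TSG.CoreH

/-!
The core of the lower bound for `T` adaptive probes with a free index (MP_e016b3_lc): a version of
`Pool.H54.TSG.coreH` for a family of schemes.
-/

namespace Pool.Agent.H55.FreeIdx

open Finset Function Classical Pool.H54.TSUM Pool.H54.TSG

variable {n U S W : ℕ}

/-- No array that is good for all hubs is answered correctly (the body of `coreH`). -/
theorem coreA (P : Scheme S W) (e : ℕ) (w₀ : Fin W) (A : Arr n U)
    (K q p m₀ rv κh Hs h β τ k v ω H : ℕ)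
    (hU : 0 < U) (hK : 0 < K) (hW : 0 < W) (hS : 0 < S) (hn : 0 < n) (hp : 0 < p)
    (hSh : S = h * β) (hβ : 0 < β) (hh : 0 < h) (hhHs : h ≤ Hs) (hH : e * Hs ≤ H)
    (hvq : 2 * q ≤ v) (hvm : 2 * m₀ ≤ v) (hvp : 24 * p ≤ v)
    (hrv : 0 < rv) (hblocks : 2 * U ≤ rv * (4 * S)) (hHs : 2 * U < (Hs + 1) * κh)
    (hτ0 : 0 < τ) (hτ : (κh / rv + 1) * m₀ ≤ τ)
    (hB : 8 * ((k * v) * 400 ^ e) ≤ n)
    (hτβ : ∀ t < e, (16 + 32 * τ) * β * (22 * β) ^ t ≤ n)
    (hω : S * ω * (2 * (22 * β) ^ e) ≤ n ^ 2)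
    (hω1 : 4 * (q - 1) ^ 2 ≤ ω) (hω2 : 40 ≤ ω)
    (hnum : (80 * (2 * (12 * p) * m₀ + (12 * p) ^ 2 + 1)) ^ (12 * p) * (216 * S ^ 3) < ω ^ p)
    (hA : ∀ θ : Fin H → Fin S × Fin W,
      GoodHub P e (n ^ 2) K q p rv m₀ (k * v) (hmem θ w₀) (hset θ) A)
    (M : Fin S → Fin W) (hM : CorrectT P (e + 2) A M) : False := by
  set B := k * v with hBdef
  -- the hub
  obtain ⟨Q, hQ, G, Y, hG, hY, hGn, hYn⟩ := levels P A M w₀ H e m₀ rv κh τ h β Hs B hS hSh hβ
    hh hhHs hH hn hτ0 hτ hHs (by omega) hτβ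
    (fun θ _ t ht => (hA θ).2.2.2 t (by omega)) e le_rfl
  obtain ⟨θ, hθ, hQθ⟩ := exists_hub Q (hQ.trans hH) hS M
  obtain ⟨hgb, hgc, hgF, hgd⟩ := hA θ
  set N := hmem θ w₀ with hN
  set Qh := hset θ with hQh
  have hMN : ∀ c ∈ Qh, N c = M c := fun c hc => hmem_eq θ w₀ M hθ c hc
  obtain ⟨D1, hD1, hgood1⟩ := good_sq _ _ q B A hgb
  obtain ⟨D2, hD2, hgood2⟩ := good_sq _ _ q B A hgc
  obtain ⟨D3, hD3, hgood3⟩ := good_conf _ (4 * p) B A hgF
  obtain ⟨D4, hD4, hgood4⟩ := gd_use P rv m₀ e B N A (hgd e (by omega))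
  set D := D1 ∪ (D2 ∪ (D3 ∪ D4)) with hD
  have hDcard : D.card ≤ 4 * B := by
    have e1 := card_union_le D1 (D2 ∪ (D3 ∪ D4))
    have e2 := card_union_le D2 (D3 ∪ D4)
    have e3 := card_union_le D3 D4
    rw [hD]
    omega
  set G₀ := G.filter (fun g => Avoids D g) with hG₀
  have hG₀G : G₀ ⊆ G := filter_subset _ _
  have hGG₀ : G.card ≤ 2 * G₀.card := by
    have h1 := avoid_card G D Y hY
    rw [← hG₀] at h1
    have h2 : 2 * (D.card * Y) ≤ G.card := by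
      have h3 : n * (2 * (D.card * Y)) ≤ n * G.card := by
        calc n * (2 * (D.card * Y)) = 2 * D.card * (Y * n) := by ring
          _ ≤ 2 * (4 * B) * (400 ^ e * G.card) :=
            Nat.mul_le_mul (Nat.mul_le_mul_left _ hDcard) hYn
          _ = 8 * (B * 400 ^ e) * G.card := by ring
          _ ≤ n * G.card := Nat.mul_le_mul_right _ hB
      exact Nat.le_of_mul_le_mul_left h3 hn
    omega
  have hSω : S * ω ≤ G₀.card := by
    have h1 : (2 * (22 * β) ^ e) * (S * ω) ≤ (2 * (22 * β) ^ e) * G₀.card := by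
      calc (2 * (22 * β) ^ e) * (S * ω) = S * ω * (2 * (22 * β) ^ e) := by ring
        _ ≤ n ^ 2 := hω
        _ ≤ (22 * β) ^ e * G.card := hGn
        _ ≤ (22 * β) ^ e * (2 * G₀.card) := Nat.mul_le_mul_left _ hGG₀
        _ = (2 * (22 * β) ^ e) * G₀.card := by ring
    exact Nat.le_of_mul_le_mul_left h1 (Nat.mul_pos (by norm_num) (Nat.pow_pos (by omega)))
  -- parameters of the final stage
  set r := G₀.card / S + 1 with hr
  set D' := r / 40 with hD'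
  have hωr : ω ≤ r := by
    have h1 : ω ≤ G₀.card / S := by
      rw [Nat.le_div_iff_mul_le hS, mul_comm]; exact hSω
    omega
  have hD'pos : 0 < D' := Nat.div_pos (by omega) (by norm_num)
  have hrS : G₀.card ≤ r * S := by
    have := Nat.lt_div_mul_add (a := G₀.card) hS
    rw [hr, Nat.add_mul, Nat.one_mul]; exact this.le
  have hSG : S ≤ G₀.card := le_trans (Nat.le_mul_of_pos_right _ (by omega)) hSω
  have hrS2 : r * S ≤ 2 * G₀.card := by
    have := Nat.div_mul_le_self G₀.card S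
    rw [hr, Nat.add_mul, Nat.one_mul]; omega
  have hDS : (D' - 1) * (16 * S) < G₀.card := by
    have h1 : 40 * D' ≤ r := Nat.mul_div_le _ _
    have h2 : 40 * D' * S ≤ r * S := Nat.mul_le_mul_right _ h1
    have h3 : (D' - 1) * (16 * S) < D' * (16 * S) :=
      Nat.mul_lt_mul_of_pos_right (by omega) (by omega)
    have h4 : D' * (16 * S) = 16 * (D' * S) := by ring
    have h5 : 40 * D' * S = 40 * (D' * S) := by ring
    omega
  have hfinal : ((2 * (12 * p) * m₀ + (12 * p) ^ 2 + 1) * r) ^ (12 * p) * (6 * S) ^ 3 <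
      r ^ p * D' ^ (12 * p) := by
    set C₂ := 2 * (12 * p) * m₀ + (12 * p) ^ 2 + 1 with hC₂
    have hr80 : r ≤ 80 * D' := by omega
    have h1 : (C₂ * r) ^ (12 * p) ≤ (80 * C₂) ^ (12 * p) * D' ^ (12 * p) := by
      rw [← mul_pow]
      refine Nat.pow_le_pow_left ?_ _
      calc C₂ * r ≤ C₂ * (80 * D') := Nat.mul_le_mul_left _ hr80
        _ = 80 * C₂ * D' := by ring
    have h2 : (6 * S) ^ 3 = 216 * S ^ 3 := by ring
    have h3 : ω ^ p ≤ r ^ p := Nat.pow_le_pow_left hωr _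
    calc (C₂ * r) ^ (12 * p) * (6 * S) ^ 3
        ≤ ((80 * C₂) ^ (12 * p) * D' ^ (12 * p)) * (216 * S ^ 3) := by
          rw [h2]; exact Nat.mul_le_mul_right _ h1
      _ = ((80 * C₂) ^ (12 * p) * (216 * S ^ 3)) * D' ^ (12 * p) := by ring
      _ < ω ^ p * D' ^ (12 * p) := Nat.mul_lt_mul_of_pos_right hnum (Nat.pow_pos hD'pos)
      _ ≤ r ^ p * D' ^ (12 * p) := Nat.mul_le_mul_right _ h3
  -- properties of the labels
  set iL : Label n → Fin S := fun g => cl P N e (zv A g) with hiL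
  set jR : Label n → Fin S := fun g => P.addr (zv A g) (M (iL g) :: P.reads N (zv A g) e)
    with hjR
  have hGres : ∀ g ∈ G₀, Res P M Qh e (zv A g) := fun g hg =>
    res_mono P M Q Qh hQθ e _ (hG g (hG₀G hg))
  have hz : ∀ g ∈ G₀, zv A g ∈ Zh P U e N Qh (iL g, M (iL g)) (jR g, M (jR g)) := by
    intro g hg
    have h1 := hGres g hg
    have h6 := reads_eq P M N Qh hMN e _ h1 e le_rfl
    have h7 : cl P M e (zv A g) = iL g := (cl_eq P M N Qh hMN e _ h1 e le_rfl).symm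
    have h8 : P.reads M (zv A g) (e + 1) = M (iL g) :: P.reads M (zv A g) e := by
      show M (P.addr (zv A g) (P.reads M (zv A g) e)) :: P.reads M (zv A g) e = _
      have : P.addr (zv A g) (P.reads M (zv A g) e) = iL g := h7
      rw [this]
    have h9 : P.reads M (zv A g) (e + 2) =
        M (jR g) :: M (iL g) :: P.reads M (zv A g) e := by
      show M (P.addr (zv A g) (P.reads M (zv A g) (e + 1))) :: P.reads M (zv A g) (e + 1) = _
      rw [h8]
      have : P.addr (zv A g) (M (iL g) :: P.reads M (zv A g) e) = jR g := by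
        rw [← h6]
      rw [this]
    have h10 : P.run (e + 2) M (zv A g) = true := (hM _).2 ⟨g, rfl⟩
    unfold Scheme.run at h10
    rw [h9, ← h6] at h10
    exact mem_filter.2 ⟨mem_range.2 (zv_lt A g), (res_iff P M N Qh hMN e _).2 h1, rfl, rfl, h10⟩
  set γ : Label n → Fin S × ℕ := fun g => vblk P U rv e N (zv A g) with hγdef
  have hγi : ∀ g g', γ g = γ g' → iL g = iL g' := fun g g' hgg => congrArg Prod.fst hgg
  have hγS : (G₀.image γ).card ≤ 5 * S := by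
    have h1 := ck_image (range (2 * U)) (cl P N e) rv
    rw [card_range] at h1
    have h2 : ((range (2 * U)).image (cl P N e)).card ≤ S := by
      refine (card_le_univ _).trans ?_
      rw [Fintype.card_fin]
    have h3 : rv * ((range (2 * U)).image (vblk P U rv e N)).card ≤ rv * (5 * S) := by
      calc _ ≤ 2 * U + rv * ((range (2 * U)).image (cl P N e)).card := h1
        _ ≤ rv * (4 * S) + rv * S := Nat.add_le_add hblocks (Nat.mul_le_mul_left _ h2)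
        _ = rv * (5 * S) := by ring
    refine le_trans (card_le_card ?_) (Nat.le_of_mul_le_mul_left h3 hrv)
    intro x hx
    obtain ⟨g, _, rfl⟩ := mem_image.1 hx
    exact mem_image_of_mem _ (mem_range.2 (zv_lt A g))
  have hav : ∀ g ∈ G₀, Avoids D1 g ∧ Avoids D2 g ∧ Avoids D3 g ∧ Avoids D4 g := by
    intro g hg
    obtain ⟨h1, h2⟩ := (mem_filter.1 hg).2
    rw [hD, mem_union, mem_union, mem_union] at h1 h2
    push Not at h1 h2
    exact ⟨⟨h1.1, h2.1⟩, ⟨h1.2.1, h2.2.1⟩, ⟨h1.2.2.1, h2.2.2.1⟩, ⟨h1.2.2.2, h2.2.2.2⟩⟩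
  obtain ⟨w, hwlen, hwG, hpriv, hrun⟩ := final_stage A M (n ^ 2) (Zh P U e N Qh) G₀ iL jR hz
    (fun g _ => zh_card P A M N e Qh hM hMN _ _) γ hγi hγS K q p m₀ r D' hp
    (Nat.succ_pos _) hD'pos
    (fun s => by
      refine le_trans (card_le_card ?_) (hgood1 s (mem_univ _))
      intro g hg
      obtain ⟨h1, h2⟩ := mem_filter.1 hg
      exact mem_filter.2 ⟨mem_univ _, (hav g h1).1, h2⟩)
    (fun s => by
      refine le_trans (card_le_card ?_) (hgood2 s (mem_univ _))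
      intro g hg
      obtain ⟨h1, h2⟩ := mem_filter.1 hg
      exact mem_filter.2 ⟨mem_univ _, (hav g h1).2.1, h2⟩)
    (fun α x => by
      refine le_trans (card_le_card ?_) (hgood4 α x)
      intro g hg
      obtain ⟨h1, h2, h3⟩ := mem_filter.1 hg
      exact mem_filter.2 ⟨mem_univ _, (hav g h1).2.2.2, h3,
        mem_filter.2 ⟨mem_range.2 (zv_lt A g), h2⟩⟩)
    (by
      calc 2 * (2 * (S * (q - 1) ^ 2)) = S * (4 * (q - 1) ^ 2) := by ring
        _ ≤ S * ω := Nat.mul_le_mul_left _ hω1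
        _ ≤ G₀.card := hSω)
    hrS hDS hfinal
  exact hgood3 w hwlen (fun i g hg => (hav g (hwG i g hg)).2.2.1) hpriv hrun


/-- The core for a family of schemes. -/
theorem coreI {I : ℕ} (P : Fin I → Pool.H54.TSG.Scheme S W) (e : ℕ)
    (hP : ∀ A : Arr n U, ∃ (x : Fin I) (M : Fin S → Fin W), CorrectT (P x) (e + 2) A M)
    (K q p m₀ rv κh Hs h β τ N' k v ω H : ℕ)
    (hU : 0 < U) (hK : 0 < K) (hW : 0 < W) (hS : 0 < S) (hn : 0 < n) (hp : 0 < p)
    (hSh : S = h * β) (hβ : 0 < β) (hh : 0 < h) (hhHs : h ≤ Hs) (hH : e * Hs ≤ H)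
    (hvq : 2 * q ≤ v) (hvm : 2 * m₀ ≤ v) (hvp : 24 * p ≤ v)
    (hrv : 0 < rv) (hblocks : 2 * U ≤ rv * (4 * S)) (hHs : 2 * U < (Hs + 1) * κh)
    (hτ0 : 0 < τ) (hτ : (κh / rv + 1) * m₀ ≤ τ)
    (hB : 8 * ((k * v) * 400 ^ e) ≤ n)
    (hτβ : ∀ t < e, (16 + 32 * τ) * β * (22 * β) ^ t ≤ n)
    (hω : S * ω * (2 * (22 * β) ^ e) ≤ n ^ 2)
    (hω1 : 4 * (q - 1) ^ 2 ≤ ω) (hω2 : 40 ≤ ω)
    (hnum : (80 * (2 * (12 * p) * m₀ + (12 * p) ^ 2 + 1)) ^ (12 * p) * (216 * S ^ 3) < ω ^ p)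
    (hNb : N' * ((S * W) * ((n ^ 2) ^ q * (n ^ 2 * (S * W)) ^ q)) ≤ U ^ q * (K + 1) ^ q)
    (hNF : N' * ((((n ^ 2) ^ (4 * p)) ^ 3 * (9 * (2 * n) ^ 2)) *
      ((S * W) * (K ^ (4 * p) * (K ^ (4 * p) * (K ^ (4 * p) * (K ^ (4 * p) * (K ^ (4 * p) *
        (n ^ 2 * n ^ 2)))))))) ≤ U ^ 2)
    (hNd : N' * ((2 * n * (5 * S)) * (n ^ m₀ * rv ^ m₀)) ≤ U ^ m₀)
    (hunion : I * (S * W) ^ H * (e + 4) < N' ^ k) : False := by
  have w₀ : Fin W := ⟨0, hW⟩
  obtain ⟨A, hA⟩ := exists_good (n := n) (U := U)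
    (fun (xθ : Fin I × (Fin H → Fin S × Fin W)) A =>
      GoodHub (P xθ.1) e (n ^ 2) K q p rv m₀ (k * v) (hmem xθ.2 w₀) (hset xθ.2) A)
    (N' ^ k) (e + 4) hU
    (fun xθ => hub_bound (P xθ.1) e (n ^ 2) K q p rv m₀ k v N' (hmem xθ.2 w₀) (hset xθ.2) hU hK
      hrv hvq hvm hvp hblocks hNb hNF hNd)
    (by
      rw [Fintype.card_prod, Fintype.card_fun, Fintype.card_fin, Fintype.card_prod,
        Fintype.card_fin, Fintype.card_fin, Fintype.card_fin]
      exact hunion)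
  obtain ⟨x, M, hM⟩ := hP A
  exact coreA (P x) e w₀ A K q p m₀ rv κh Hs h β τ k v ω H hU hK hW hS hn hp hSh hβ hh hhHs hH
    hvq hvm hvp hrv hblocks hHs hτ0 hτ hB hτβ hω hω1 hω2 hnum (fun θ => hA (x, θ)) M hM

end Pool.Agent.H55.FreeIdx
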