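import Pool.Agent.H55.FreeIdx.Defs

set_option linter.unusedSectionVars false

namespace Pool.Agent.H55.FreeIdx

open Finset

open scoped Classical in
/-- a set of at most `k` naturals is covered by a function on `Fin k` -/
theorem exists_enum (k : ℕ) (hk : 1 ≤ k) (Z : Set ℕ) : ∃ e : Fin k → ℕ,
    (Z.Finite ∧ Z.ncard ≤ k) → ∀ z ∈ Z, ∃ i, e i = z := by
  by_cases hZ : Z.Finite ∧ Z.ncard ≤ k
  · obtain ⟨hf, hc⟩ := hZ
    rw [Set.ncard_eq_toFinset_card Z hf] at hc
    refine ⟨fun i => if h : i.val < hf.toFinset.card then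
      (hf.toFinset.orderEmbOfFin rfl ⟨i.val, h⟩) else 0, fun _ z hz => ?_⟩
    have hz' : z ∈ hf.toFinset := by simpa using hz
    have hr : z ∈ Set.range (hf.toFinset.orderEmbOfFin rfl) := by
      rw [Finset.range_orderEmbOfFin]
      exact hz'
    obtain ⟨j, hj⟩ := hr
    refine ⟨⟨j.val, lt_of_lt_of_le j.isLt hc⟩, ?_⟩
    dsimp only
    rw [dif_pos j.isLt]
    exact hj
  · exact ⟨fun _ => 0, fun h => absurd h hZ⟩

section

variable {n U S H : ℕ} {X : Type} [Fintype X]

/-- the chosen enumeration of the accept set -/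
noncomputable def en (V : Fin H → ℕ → Fin S → X → Prop) (k : ℕ) (hk : 1 ≤ k) (h : Fin H)
    (s : Fin S) (x : X) : Fin k → ℕ :=
  (exists_enum k hk {z | V h z s x}).choose

/-- The rows of a set of size `r` are covered by `m` cells. -/
def Cov (V : Fin H → ℕ → Fin S → X → Prop) (m r : ℕ) (A B : Fin n → Fin U) : Prop :=
  ∃ (h : Fin H) (M : Fin S → X), (∀ z s, V h z s (M s) → IsSum A B z) ∧
    ∃ (f : Fin m → Fin S) (R : Finset (Fin n)), R.card = r ∧
      ∀ a ∈ R, ∃ j b, V h ((A a : ℕ) + (B b : ℕ)) (f j) (M (f j))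

/-- the data of an encoding -/
abbrev Data (n S H m : ℕ) (X : Type) : Type :=
  (Fin H × (Fin m → Fin S × X)) × Finset (Fin n) × (Fin n → Fin m × Fin n × Fin (n ^ 2))

/-- the pairs of arrays which are consistent with the data -/
def Cons (U : ℕ) (V : Fin H → ℕ → Fin S → X → Prop) (m : ℕ) (hn : 1 ≤ n ^ 2)
    (d : Data n S H m X) (p : (Fin n → Fin U) × (Fin n → Fin U)) : Prop :=
  ∀ a ∈ d.2.1, (p.1 a : ℕ) + (p.2 (d.2.2 a).2.1 : ℕ) =
    en V (n ^ 2) hn d.1.1 (d.1.2 (d.2.2 a).1).1 (d.1.2 (d.2.2 a).1).2 (d.2.2 a).2.2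

open scoped Classical in
theorem card_cons (V : Fin H → ℕ → Fin S → X → Prop) (m : ℕ) (hn : 1 ≤ n ^ 2)
    (d : Data n S H m X) :
    (univ.filter (fun p : (Fin n → Fin U) × (Fin n → Fin U) => Cons U V m hn d p)).card *
      U ^ d.2.1.card ≤ U ^ (2 * n) := by
  have h1 : Fintype.card ((Fin n → Fin U) × (Fin n → Fin U)) = U ^ (2 * n) := by
    simp [two_mul, pow_add]
  have h2 : U ^ d.2.1.card = (univ : Finset (d.2.1 → Fin U)).card := by
    simp
  rw [← h1, h2, ← Finset.card_product, ← Finset.card_univ]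
  refine Finset.card_le_card_of_injOn
    (fun q => (fun a => if h : a ∈ d.2.1 then q.2 ⟨a, h⟩ else q.1.1 a, q.1.2))
    (fun _ _ => Finset.mem_coe.2 (Finset.mem_univ _)) ?_
  rintro ⟨⟨A, B⟩, c⟩ hq ⟨⟨A', B'⟩, c'⟩ hq' heq
  have hq1 : Cons U V m hn d (A, B) := (Finset.mem_filter.1 (Finset.mem_product.1
    (Finset.mem_coe.1 hq)).1).2
  have hq1' : Cons U V m hn d (A', B') := (Finset.mem_filter.1 (Finset.mem_product.1
    (Finset.mem_coe.1 hq')).1).2
  simp only [Prod.mk.injEq] at heq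
  obtain ⟨hA, hB⟩ := heq
  subst hB
  have hc : c = c' := by
    funext ⟨a, ha⟩
    have := congrFun hA a
    simpa [ha] using this
  have hAA : A = A' := by
    funext a
    by_cases ha : a ∈ d.2.1
    · have e1 := hq1 a ha
      have e2 := hq1' a ha
      have e3 : (A a : ℕ) + (B (d.2.2 a).2.1 : ℕ) = (A' a : ℕ) + (B (d.2.2 a).2.1 : ℕ) :=
        e1.trans e2.symm
      exact Fin.ext (by omega)
    · have := congrFun hA a
      simpa [ha] using this
  rw [hc, hAA]

/-- the sums are at most `n ^ 2` many -/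
theorem sums_card (A B : Fin n → Fin U) : {z | IsSum A B z}.Finite ∧
    {z | IsSum A B z}.ncard ≤ n ^ 2 := by
  classical
  have h1 : {z | IsSum A B z} =
      ((Finset.univ.image (fun t : Fin n × Fin n => (A t.1 : ℕ) + (B t.2 : ℕ)) : Finset ℕ) :
        Set ℕ) := by
    ext z
    simp [IsSum]
  rw [h1]
  refine ⟨Finset.finite_toSet _, ?_⟩
  rw [Set.ncard_coe_finset]
  refine Finset.card_image_le.trans ?_
  rw [Finset.card_univ, Fintype.card_prod, Fintype.card_fin, pow_two]

theorem cons_of_cov (V : Fin H → ℕ → Fin S → X → Prop) (m r : ℕ) (hn : 1 ≤ n ^ 2) (hr : 1 ≤ r)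
    (A B : Fin n → Fin U) (hc : Cov V m r A B) :
    ∃ d : Data n S H m X, d.2.1.card = r ∧ Cons U V m hn d (A, B) := by
  classical
  obtain ⟨h, M, hM, f, R, hR, hcov⟩ := hc
  have hne : R.Nonempty := by
    rw [← Finset.card_pos, hR]; exact hr
  -- the data of a row
  have key : ∀ a ∈ R, ∃ t : Fin m × Fin n × Fin (n ^ 2),
      (A a : ℕ) + (B t.2.1 : ℕ) = en V (n ^ 2) hn h (f t.1) (M (f t.1)) t.2.2 := by
    intro a ha
    obtain ⟨j, b, hjb⟩ := hcov a ha
    have hsub : {z | V h z (f j) (M (f j))} ⊆ {z | IsSum A B z} := fun z hz => hM z _ hz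
    have hfin := (sums_card A B).1.subset hsub
    have hcard := (Set.ncard_le_ncard hsub (sums_card A B).1).trans (sums_card A B).2
    obtain ⟨i, hi⟩ := (exists_enum (n ^ 2) hn {z | V h z (f j) (M (f j))}).choose_spec
      ⟨hfin, hcard⟩ _ hjb
    exact ⟨(j, b, i), hi.symm⟩
  obtain ⟨a0, ha0⟩ := hne
  obtain ⟨t0, _⟩ := key a0 ha0
  refine ⟨((h, fun j => (f j, M (f j))), R,
    fun a => if ha : a ∈ R then (key a ha).choose else t0), hR, ?_⟩
  intro a ha
  have ha' : a ∈ R := ha
  simp only [dif_pos ha']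
  exact (key a ha').choose_spec

open scoped Classical in
theorem card_cov (V : Fin H → ℕ → Fin S → X → Prop) (m r : ℕ) (hn : 1 ≤ n) (hr : 1 ≤ r) :
    (univ.filter (fun p : (Fin n → Fin U) × (Fin n → Fin U) => Cov V m r p.1 p.2)).card *
      U ^ r ≤ (H * (S * Fintype.card X) ^ m * (2 ^ n * (m * (n * n ^ 2)) ^ n)) * U ^ (2 * n) := by
  have hn2 : 1 ≤ n ^ 2 := Nat.one_le_pow _ _ hn
  have hcardD : Fintype.card (Data n S H m X) =
      H * (S * Fintype.card X) ^ m * (2 ^ n * (m * (n * n ^ 2)) ^ n) := by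
    simp [Data, Fintype.card_prod, Fintype.card_pi]
  rw [← hcardD]
  have hsub : univ.filter (fun p : (Fin n → Fin U) × (Fin n → Fin U) => Cov V m r p.1 p.2) ⊆
      (univ.filter (fun d : Data n S H m X => d.2.1.card = r)).biUnion
        (fun d => univ.filter (fun p => Cons U V m hn2 d p)) := by
    intro p hp
    obtain ⟨d, hd1, hd2⟩ := cons_of_cov V m r hn2 hr p.1 p.2 (Finset.mem_filter.1 hp).2
    exact Finset.mem_biUnion.2 ⟨d, Finset.mem_filter.2 ⟨Finset.mem_univ _, hd1⟩,
      Finset.mem_filter.2 ⟨Finset.mem_univ _, hd2⟩⟩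
  calc _ ≤ ((univ.filter (fun d : Data n S H m X => d.2.1.card = r)).biUnion
        (fun d => univ.filter (fun p => Cons U V m hn2 d p))).card * U ^ r :=
        Nat.mul_le_mul_right _ (Finset.card_le_card hsub)
    _ ≤ (∑ d ∈ univ.filter (fun d : Data n S H m X => d.2.1.card = r),
        (univ.filter (fun p : (Fin n → Fin U) × (Fin n → Fin U) =>
          Cons U V m hn2 d p)).card) * U ^ r :=
        Nat.mul_le_mul_right _ Finset.card_biUnion_le
    _ = ∑ d ∈ univ.filter (fun d : Data n S H m X => d.2.1.card = r),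
        (univ.filter (fun p : (Fin n → Fin U) × (Fin n → Fin U) =>
          Cons U V m hn2 d p)).card * U ^ r := Finset.sum_mul _ _ _
    _ ≤ ∑ d ∈ univ.filter (fun d : Data n S H m X => d.2.1.card = r), U ^ (2 * n) := by
        refine Finset.sum_le_sum fun d hd => ?_
        have := card_cons (U := U) V m hn2 d
        rwa [(Finset.mem_filter.1 hd).2] at this
    _ = (univ.filter (fun d : Data n S H m X => d.2.1.card = r)).card * U ^ (2 * n) := by
        rw [Finset.sum_const, smul_eq_mul]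
    _ ≤ Fintype.card (Data n S H m X) * U ^ (2 * n) :=
        Nat.mul_le_mul_right _ (Finset.card_le_univ _)

/-- Greedy covering: a relation between cells and rows. -/
theorem greedy {α β : Type} [Fintype α] [Fintype β] [DecidableEq α] [DecidableEq β]
    (L : α → Finset β) (q : ℕ) (hq : 1 ≤ q) :
    ∃ T : Finset α, q * T.card ≤ (T.biUnion L).card ∧
      ∀ i, (L i \ T.biUnion L).card < q := by
  obtain ⟨T, hT, hmax⟩ := Finset.exists_max_image
    (univ.filter (fun T : Finset α => q * T.card ≤ (T.biUnion L).card)) Finset.card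
    ⟨∅, by simp⟩
  have hT' := (Finset.mem_filter.1 hT).2
  refine ⟨T, hT', fun i => ?_⟩
  by_contra hcon
  rw [not_lt] at hcon
  have hi : i ∉ T := by
    intro hi
    have : L i \ T.biUnion L = ∅ := by
      rw [Finset.sdiff_eq_empty_iff_subset]
      exact Finset.subset_biUnion_of_mem L hi
    rw [this, Finset.card_empty] at hcon
    omega
  have h1 : (insert i T).card = T.card + 1 := Finset.card_insert_of_notMem hi
  have h2 : ((insert i T).biUnion L).card = (L i \ T.biUnion L).card + (T.biUnion L).card := by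
    rw [Finset.biUnion_insert, Finset.union_comm, ← Finset.union_sdiff_self_eq_union,
      Finset.card_union_of_disjoint Finset.disjoint_sdiff, add_comm]
  have h3 : insert i T ∈ univ.filter (fun T : Finset α => q * T.card ≤ (T.biUnion L).card) := by
    refine Finset.mem_filter.2 ⟨Finset.mem_univ _, ?_⟩
    rw [h1, h2, mul_add, mul_one]
    omega
  have := hmax _ h3
  omega

/-- a finset of at most `m` cells, nonempty, is listed by a function on `Fin m` -/
theorem list_of_card {α : Type} [DecidableEq α] (T : Finset α) (m : ℕ) (hT : T.card ≤ m)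
    (hne : T.Nonempty) : ∃ f : Fin m → α, ∀ i ∈ T, ∃ j, f j = i := by
  classical
  obtain ⟨i0, hi0⟩ := hne
  have e := T.equivFin
  refine ⟨fun j => if h : j.val < T.card then (e.symm ⟨j.val, h⟩ : α) else i0, fun i hi => ?_⟩
  refine ⟨⟨(e ⟨i, hi⟩).val, lt_of_lt_of_le (e ⟨i, hi⟩).isLt hT⟩, ?_⟩
  simp

open scoped Classical in
theorem cov_or (V : Fin H → ℕ → Fin S → X → Prop) (q r : ℕ) (hq : 1 ≤ q) (hr : 1 ≤ r)
    (hrn : r ≤ n) (hS : S * ((q - 1) * (q - 1)) < (n - r + 1) * (n - r + 1))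
    (A B : Fin n → Fin U)
    (hV : ∃ (h : Fin H) (M : Fin S → X), ∀ z, (∃ s, V h z s (M s)) ↔ IsSum A B z) :
    Cov V (n / q) r A B ∨ Cov V (n / q) r B A := by
  obtain ⟨h, M, hM⟩ := hV
  -- labels of a cell
  let rows : Fin S → Finset (Fin n) := fun s =>
    univ.filter (fun a => ∃ b, V h ((A a : ℕ) + (B b : ℕ)) s (M s))
  let cols : Fin S → Finset (Fin n) := fun s =>
    univ.filter (fun b => ∃ a, V h ((A a : ℕ) + (B b : ℕ)) s (M s))
  obtain ⟨T, hT1, hT2⟩ := greedy rows q hq
  obtain ⟨T', hT1', hT2'⟩ := greedy cols q hq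
  have hTm : ∀ T : Finset (Fin S), ∀ L : Fin S → Finset (Fin n),
      q * T.card ≤ (T.biUnion L).card → T.card ≤ n / q := by
    intro T L hT
    rw [Nat.le_div_iff_mul_le (by omega), mul_comm]
    refine hT.trans ?_
    have := Finset.card_le_univ (T.biUnion L)
    simpa using this
  by_cases hR : r ≤ (T.biUnion rows).card
  · left
    refine ⟨h, M, fun z s hz => (hM z).1 ⟨s, hz⟩, ?_⟩
    have hne : T.Nonempty := by
      by_contra hcon
      rw [Finset.not_nonempty_iff_eq_empty] at hcon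
      rw [hcon] at hR
      simp at hR
      omega
    obtain ⟨f, hf⟩ := list_of_card T (n / q) (hTm T rows hT1) hne
    obtain ⟨R, hR1, hR2⟩ := Finset.exists_subset_card_eq hR
    refine ⟨f, R, hR2, fun a ha => ?_⟩
    obtain ⟨s, hs, hsa⟩ := Finset.mem_biUnion.1 (hR1 ha)
    obtain ⟨b, hb⟩ := (Finset.mem_filter.1 hsa).2
    obtain ⟨j, hj⟩ := hf s hs
    exact ⟨j, b, by rw [hj]; exact hb⟩
  · by_cases hC : r ≤ (T'.biUnion cols).card
    · right
      refine ⟨h, M, fun z s hz => ?_, ?_⟩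
      · obtain ⟨a, b, hab⟩ := (hM z).1 ⟨s, hz⟩
        exact ⟨b, a, by omega⟩
      have hne : T'.Nonempty := by
        by_contra hcon
        rw [Finset.not_nonempty_iff_eq_empty] at hcon
        rw [hcon] at hC
        simp at hC
        omega
      obtain ⟨f, hf⟩ := list_of_card T' (n / q) (hTm T' cols hT1') hne
      obtain ⟨R, hR1, hR2⟩ := Finset.exists_subset_card_eq hC
      refine ⟨f, R, hR2, fun b hb => ?_⟩
      obtain ⟨s, hs, hsb⟩ := Finset.mem_biUnion.1 (hR1 hb)
      obtain ⟨a, ha⟩ := (Finset.mem_filter.1 hsb).2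
      obtain ⟨j, hj⟩ := hf s hs
      refine ⟨j, a, ?_⟩
      rw [hj, add_comm]
      exact ha
    · exfalso
      rw [not_le] at hR hC
      -- the labels outside
      have h1 : ((univ \ T.biUnion rows) ×ˢ (univ \ T'.biUnion cols)) ⊆
          univ.biUnion (fun s : Fin S =>
            (rows s \ T.biUnion rows) ×ˢ (cols s \ T'.biUnion cols)) := by
        rintro ⟨a, b⟩ hab
        obtain ⟨ha, hb⟩ := Finset.mem_product.1 hab
        obtain ⟨s, hs⟩ := (hM ((A a : ℕ) + (B b : ℕ))).2 ⟨a, b, rfl⟩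
        refine Finset.mem_biUnion.2 ⟨s, Finset.mem_univ _, Finset.mem_product.2 ⟨?_, ?_⟩⟩
        · exact Finset.mem_sdiff.2 ⟨Finset.mem_filter.2 ⟨Finset.mem_univ _, b, hs⟩,
            (Finset.mem_sdiff.1 ha).2⟩
        · exact Finset.mem_sdiff.2 ⟨Finset.mem_filter.2 ⟨Finset.mem_univ _, a, hs⟩,
            (Finset.mem_sdiff.1 hb).2⟩
      have h2 := Finset.card_le_card h1
      rw [Finset.card_product] at h2
      have h3 : (univ.biUnion (fun s : Fin S =>
            (rows s \ T.biUnion rows) ×ˢ (cols s \ T'.biUnion cols))).card ≤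
            S * ((q - 1) * (q - 1)) := by
        refine Finset.card_biUnion_le.trans ?_
        calc _ ≤ ∑ _s : Fin S, (q - 1) * (q - 1) := by
              refine Finset.sum_le_sum fun s _ => ?_
              rw [Finset.card_product]
              have e1 := hT2 s
              have e2 := hT2' s
              exact Nat.mul_le_mul (by omega) (by omega)
          _ = S * ((q - 1) * (q - 1)) := by simp
      have h4 : ∀ Y : Finset (Fin n), Y.card < r → n - r + 1 ≤ (univ \ Y).card := by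
        intro Y hY
        rw [← Finset.compl_eq_univ_sdiff, Finset.card_compl, Fintype.card_fin]
        omega
      have h5 := Nat.mul_le_mul (h4 _ hR) (h4 _ hC)
      omega

open scoped Classical in
/-- The main counting inequality. -/
theorem core (V : Fin H → ℕ → Fin S → X → Prop) (q r : ℕ) (hq : 1 ≤ q) (hr : 1 ≤ r)
    (hrn : r ≤ n) (hS : S * ((q - 1) * (q - 1)) < (n - r + 1) * (n - r + 1))
    (hV : ∀ A B : Fin n → Fin U, ∃ (h : Fin H) (M : Fin S → X),
      ∀ z, (∃ s, V h z s (M s)) ↔ IsSum A B z) :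
    U ^ r ≤ 2 * (H * (S * Fintype.card X) ^ (n / q) * (2 ^ n * (n ^ 4) ^ n)) := by
  rcases Nat.eq_zero_or_pos U with hU | hU
  · rw [hU, Nat.zero_pow (by omega)]
    exact Nat.zero_le _
  have hn : 1 ≤ n := hr.trans hrn
  let F := univ.filter (fun p : (Fin n → Fin U) × (Fin n → Fin U) => Cov V (n / q) r p.1 p.2)
  let F' := univ.filter (fun p : (Fin n → Fin U) × (Fin n → Fin U) => Cov V (n / q) r p.2 p.1)
  have h1 : U ^ (2 * n) ≤ F.card + F'.card := by
    have hcard : Fintype.card ((Fin n → Fin U) × (Fin n → Fin U)) = U ^ (2 * n) := by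
      simp [two_mul, pow_add]
    rw [← hcard, ← Finset.card_univ]
    have : (univ : Finset ((Fin n → Fin U) × (Fin n → Fin U))) ⊆ F ∪ F' := by
      intro p _
      rcases cov_or V q r hq hr hrn hS p.1 p.2 (hV p.1 p.2) with hp | hp
      · exact Finset.mem_union_left _ (Finset.mem_filter.2 ⟨Finset.mem_univ _, hp⟩)
      · exact Finset.mem_union_right _ (Finset.mem_filter.2 ⟨Finset.mem_univ _, hp⟩)
    exact (Finset.card_le_card this).trans (Finset.card_union_le _ _)
  have h2 : F'.card ≤ F.card := by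
    refine Finset.card_le_card_of_injOn Prod.swap ?_ (Prod.swap_injective.injOn)
    intro p hp
    have hp' := (Finset.mem_filter.1 (Finset.mem_coe.1 hp)).2
    exact Finset.mem_coe.2 (Finset.mem_filter.2 ⟨Finset.mem_univ _, hp'⟩)
  have h3 := card_cov (U := U) V (n / q) r hn hr
  have hmn : n / q ≤ n := Nat.div_le_self _ _
  have h4 : (n / q * (n * n ^ 2)) ^ n ≤ (n ^ 4) ^ n := by
    refine Nat.pow_le_pow_left ?_ _
    calc n / q * (n * n ^ 2) ≤ n * (n * n ^ 2) := Nat.mul_le_mul_right _ hmn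
      _ = n ^ 4 := by ring
  have h5 : U ^ (2 * n) * U ^ r ≤
      (2 * (H * (S * Fintype.card X) ^ (n / q) * (2 ^ n * (n ^ 4) ^ n))) * U ^ (2 * n) := by
    calc U ^ (2 * n) * U ^ r ≤ (2 * F.card) * U ^ r := Nat.mul_le_mul_right _ (by omega)
      _ = 2 * (F.card * U ^ r) := by ring
      _ ≤ 2 * ((H * (S * Fintype.card X) ^ (n / q) * (2 ^ n * (n / q * (n * n ^ 2)) ^ n)) *
          U ^ (2 * n)) := Nat.mul_le_mul_left _ h3
      _ ≤ 2 * ((H * (S * Fintype.card X) ^ (n / q) * (2 ^ n * (n ^ 4) ^ n)) *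
          U ^ (2 * n)) := by gcongr
      _ = _ := by ring
  have h6 : 0 < U ^ (2 * n) := Nat.pow_pos hU
  rw [mul_comm] at h5
  exact Nat.le_of_mul_le_mul_right h5 h6

end

end Pool.Agent.H55.FreeIdx
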