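import Mathlib

/-!
Definitions: 3SUM-Indexing structures with a free index (MP_e016b3_lc).
-/

namespace Pool.Agent.H55.FreeIdx

/-- `z` is the sum of an entry of `A` and an entry of `B`. -/
def IsSum {n U : ℕ} (A B : Fin n → Fin U) (z : ℕ) : Prop := ∃ a b, (A a : ℕ) + (B b : ℕ) = z

/-- The contents of the `κ` consecutive words starting at address `s` (addresses modulo `S`). -/
def block {S W : ℕ} (κ : ℕ) (M : Fin S → Fin W) (s : Fin S) : Fin κ → Fin W :=
  fun i => M ⟨((s : ℕ) + (i : ℕ)) % S, Nat.mod_lt _ s.pos⟩

/-- Positive answers are certified by the index and one block: there is a verifier, any relation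
of the value `h < H` of the index, the query `z`, an address and the block of `κ` consecutive
words at this address, such that for all arrays `A`, `B` of `n` integers in `[0, U)` there are an
index `h` and a memory `M` of `S` words with `W` possible values each for which the integers `z`
that are certified by some block of `M` are exactly the sums `A i + B j`. -/
def PositivesCertified (n U S W κ H : ℕ) : Prop :=
  ∃ V : Fin H → ℕ → Fin S → (Fin κ → Fin W) → Prop,
    ∀ A B : Fin n → Fin U, ∃ (h : Fin H) (M : Fin S → Fin W),
      ∀ z : ℕ, (∃ s : Fin S, V h z s (block κ M s)) ↔ IsSum A B z

/-- A query algorithm with a free index (a value `h < H`) and adaptive probes to a memory of `S`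
words with `W` possible values each. `addr h z l` is the address of the next word which is read
on query `z` when the list `l` of contents has been read so far (latest content first), and
`ans h z l` is the answer given on query `z` after the contents `l` have been read. -/
structure Scheme (H S W : ℕ) where
  /-- address of the next probe -/
  addr : Fin H → ℕ → List (Fin W) → Fin S
  /-- the answer -/
  ans : Fin H → ℕ → List (Fin W) → Bool

/-- The contents found by the first `t` probes on query `z` (latest first). -/
def Scheme.reads {H S W : ℕ} (P : Scheme H S W) (h : Fin H) (M : Fin S → Fin W) (z : ℕ) :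
    ℕ → List (Fin W)
  | 0 => []
  | t + 1 => M (P.addr h z (P.reads h M z t)) :: P.reads h M z t

/-- The answer on query `z` after `T` probes to the memory `M`, with index `h`. -/
def Scheme.run {H S W : ℕ} (P : Scheme H S W) (T : ℕ) (h : Fin H) (M : Fin S → Fin W) (z : ℕ) :
    Bool :=
  P.ans h z (P.reads h M z T)

/-- There is a (deterministic) structure for two arrays of `n` integers in `[0, U)` with an index
with `H` possible values, `S` words with `W` possible values each, and `T` adaptive probes: for
all arrays some index and memory make every query answered correctly. -/
def Solvable (n U S W H T : ℕ) : Prop :=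
  ∃ P : Scheme H S W, ∀ A B : Fin n → Fin U, ∃ (h : Fin H) (M : Fin S → Fin W),
    ∀ z : ℕ, P.run T h M z = true ↔ IsSum A B z

end Pool.Agent.H55.FreeIdx
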