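import Pool.Agent.H55.FreeIdx.Count

namespace Pool.Agent.H55.FreeIdx

open Finset

theorem lower {ε : ℝ} {κ n U S W H : ℕ} (hε : 0 < ε) (hε1 : ε ≤ 1) (hκ : 1 ≤ κ) (hn : 1 ≤ n)
    (hU : (n : ℝ) ^ (15 / ε) ≤ U) (hW : W ≤ U) (hH : (H : ℝ) ≤ (U : ℝ) ^ ((1 - ε) * n))
    (hP : PositivesCertified n U S W κ H) : (ε ^ 2 * n / (16 * κ)) ^ 2 ≤ (S : ℝ) := by
  have hn1 : (1 : ℝ) ≤ n := by exact_mod_cast hn
  have hκ1 : (1 : ℝ) ≤ κ := by exact_mod_cast hκ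
  have hU1 : (1 : ℝ) ≤ U := (Real.one_le_rpow hn1 (by positivity)).trans hU
  have hUpos : 0 < U := by exact_mod_cast (lt_of_lt_of_le one_pos hU1)
  -- there is at least one word
  have hSpos : 1 ≤ S := by
    obtain ⟨V, hV⟩ := hP
    obtain ⟨h, M, hM⟩ := hV (fun _ => ⟨0, hUpos⟩) (fun _ => ⟨0, hUpos⟩)
    obtain ⟨s, _⟩ := (hM 0).2 ⟨⟨0, hn⟩, ⟨0, hn⟩, rfl⟩
    exact s.pos
  have hS1 : (1 : ℝ) ≤ S := by exact_mod_cast hSpos
  rcases Nat.lt_or_ge n 2 with hn2 | hn2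
  · have hn0 : n = 1 := by omega
    subst hn0
    refine le_trans ?_ hS1
    have h1 : ε ^ 2 * ((1 : ℕ) : ℝ) / (16 * κ) ≤ 1 := by
      rw [div_le_one (by positivity)]
      push_cast
      nlinarith
    have h2 : 0 ≤ ε ^ 2 * ((1 : ℕ) : ℝ) / (16 * κ) := by positivity
    nlinarith
  by_contra hcon
  rw [not_le] at hcon
  obtain ⟨q, hq⟩ : ∃ q, q = ⌈4 * κ / ε⌉₊ := ⟨_, rfl⟩
  obtain ⟨f, hf⟩ : ∃ f, f = ⌊ε * n / 4⌋₊ := ⟨_, rfl⟩
  have hq1 : 4 * κ / ε ≤ q := by rw [hq]; exact Nat.le_ceil _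
  have hq2 : (q : ℝ) - 1 < 4 * κ / ε := by
    rw [hq]
    have := Nat.ceil_lt_add_one (show 0 ≤ 4 * κ / ε by positivity)
    linarith
  have hf1 : (f : ℝ) ≤ ε * n / 4 := by rw [hf]; exact Nat.floor_le (by positivity)
  have hf2 : ε * n / 4 < f + 1 := by rw [hf]; exact Nat.lt_floor_add_one _
  have hq4 : (4 : ℝ) ≤ q := by
    refine le_trans ?_ hq1
    rw [le_div_iff₀ hε]
    nlinarith
  have hq4' : 4 ≤ q := by exact_mod_cast hq4
  have hfn : f < n := by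
    have : (f : ℝ) < n := by nlinarith
    exact_mod_cast this
  have hr1 : 1 ≤ n - f := by omega
  -- the space hypothesis of `core`
  have hSq : S * ((q - 1) * (q - 1)) < (n - (n - f) + 1) * (n - (n - f) + 1) := by
    have h1 : n - (n - f) = f := by omega
    rw [h1]
    have h2 : ((q - 1 : ℕ) : ℝ) = (q : ℝ) - 1 := by
      rw [Nat.cast_sub (by omega)]; push_cast; ring
    have h3 : (S : ℝ) * (((q : ℝ) - 1) * ((q : ℝ) - 1)) < ((f : ℝ) + 1) * ((f : ℝ) + 1) := by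
      have e1 : ((q : ℝ) - 1) * ((q : ℝ) - 1) ≤ (4 * κ / ε) * (4 * κ / ε) :=
        mul_le_mul hq2.le hq2.le (by linarith) (by positivity)
      have e2 : (ε * n / 4) * (ε * n / 4) < ((f : ℝ) + 1) * ((f : ℝ) + 1) :=
        mul_lt_mul'' hf2 hf2 (by positivity) (by positivity)
      have e3 : (ε ^ 2 * n / (16 * κ)) ^ 2 * ((4 * κ / ε) * (4 * κ / ε)) =
          (ε * n / 4) * (ε * n / 4) := by
        field_simp
        ring
      have e4 : 0 < (4 * κ / ε) * (4 * κ / ε) := by positivity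
      calc (S : ℝ) * (((q : ℝ) - 1) * ((q : ℝ) - 1))
          ≤ S * ((4 * κ / ε) * (4 * κ / ε)) := mul_le_mul_of_nonneg_left e1 (by positivity)
        _ < (ε ^ 2 * n / (16 * κ)) ^ 2 * ((4 * κ / ε) * (4 * κ / ε)) :=
            mul_lt_mul_of_pos_right hcon e4
        _ = (ε * n / 4) * (ε * n / 4) := e3
        _ < _ := e2
    rw [← h2] at h3
    exact_mod_cast h3
  -- counting
  obtain ⟨V, hV⟩ := hP
  have hmain := core (U := U) (X := Fin κ → Fin W) (n := n) V q (n - f) (by omega) hr1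
    (by omega) hSq (fun A B => by
      obtain ⟨h, M, hM⟩ := hV A B
      exact ⟨h, fun s => block κ M s, hM⟩)
  have hcardX : Fintype.card (Fin κ → Fin W) = W ^ κ := by simp
  rw [hcardX] at hmain
  obtain ⟨g, hg⟩ : ∃ g, g = n / q := ⟨_, rfl⟩
  rw [← hg] at hmain
  have hgq : g * q ≤ n := by rw [hg]; exact Nat.div_mul_le_self _ _
  have h2g : 2 * g ≤ n := by nlinarith
  have hSn : S ≤ n ^ 2 := by
    have h1 : ε ^ 2 * n / (16 * κ) ≤ n := by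
      rw [div_le_iff₀ (by positivity)]
      nlinarith [mul_pos hε hε]
    have h2 : (S : ℝ) ≤ (n : ℝ) ^ 2 := hcon.le.trans (by gcongr)
    exact_mod_cast h2
  have hnat : U ^ (n - f) ≤ H * U ^ (κ * g) * n ^ (7 * n) := by
    have e1 : (S * W ^ κ) ^ g ≤ n ^ n * U ^ (κ * g) := by
      calc (S * W ^ κ) ^ g ≤ (n ^ 2 * U ^ κ) ^ g :=
            Nat.pow_le_pow_left (Nat.mul_le_mul hSn (Nat.pow_le_pow_left hW _)) _
        _ = n ^ (2 * g) * U ^ (κ * g) := by rw [mul_pow, ← pow_mul, ← pow_mul]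
        _ ≤ n ^ n * U ^ (κ * g) := Nat.mul_le_mul_right _ (Nat.pow_le_pow_right hn h2g)
    have e2 : 2 * 2 ^ n ≤ n ^ (2 * n) := by
      calc 2 * 2 ^ n = 2 ^ (n + 1) := by ring
        _ ≤ 2 ^ (2 * n) := Nat.pow_le_pow_right (by norm_num) (by omega)
        _ ≤ n ^ (2 * n) := Nat.pow_le_pow_left hn2 _
    calc U ^ (n - f) ≤ 2 * (H * (S * W ^ κ) ^ g * (2 ^ n * (n ^ 4) ^ n)) := hmain
      _ ≤ 2 * (H * (n ^ n * U ^ (κ * g)) * (2 ^ n * (n ^ 4) ^ n)) := by gcongr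
      _ = (2 * 2 ^ n) * (H * U ^ (κ * g) * (n ^ n * n ^ (4 * n))) := by rw [← pow_mul]; ring
      _ ≤ n ^ (2 * n) * (H * U ^ (κ * g) * (n ^ n * n ^ (4 * n))) := Nat.mul_le_mul_right _ e2
      _ = H * U ^ (κ * g) * n ^ (7 * n) := by ring
  -- real exponents
  have hUpos' : (0 : ℝ) < U := by linarith
  have hreal : (U : ℝ) ^ ((n : ℝ) - f) ≤ (H : ℝ) * (U : ℝ) ^ ((κ : ℝ) * g) * (n : ℝ) ^ (7 * n) := by
    have h1 : ((n - f : ℕ) : ℝ) = (n : ℝ) - f := Nat.cast_sub hfn.le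
    rw [← h1, Real.rpow_natCast]
    have h2 : (κ : ℝ) * g = ((κ * g : ℕ) : ℝ) := by push_cast; ring
    rw [h2, Real.rpow_natCast]
    exact_mod_cast hnat
  have hκg : (κ : ℝ) * g ≤ ε * n / 4 := by
    have h1 : (g : ℝ) * q ≤ n := by exact_mod_cast hgq
    have h2 : 4 * (κ : ℝ) ≤ q * ε := (div_le_iff₀ hε).1 hq1
    have h3 : 4 * (κ : ℝ) * g ≤ ε * n := by
      calc 4 * (κ : ℝ) * g ≤ q * ε * g := by gcongr
        _ = ε * (g * q) := by ring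
        _ ≤ ε * n := by gcongr
    linarith
  have h1 : (U : ℝ) ^ ((n : ℝ) - ε * n / 4) ≤
      (U : ℝ) ^ ((1 - ε) * n) * (U : ℝ) ^ (ε * n / 4) * (n : ℝ) ^ (7 * n) := by
    calc (U : ℝ) ^ ((n : ℝ) - ε * n / 4) ≤ (U : ℝ) ^ ((n : ℝ) - f) :=
          Real.rpow_le_rpow_of_exponent_le hU1 (by linarith)
      _ ≤ (H : ℝ) * (U : ℝ) ^ ((κ : ℝ) * g) * (n : ℝ) ^ (7 * n) := hreal
      _ ≤ (U : ℝ) ^ ((1 - ε) * n) * (U : ℝ) ^ (ε * n / 4) * (n : ℝ) ^ (7 * n) := by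
          have := Real.rpow_le_rpow_of_exponent_le hU1 hκg
          gcongr
  have h2 : (U : ℝ) ^ (ε * n / 2) ≤ (n : ℝ) ^ (7 * n) := by
    have e1 : (U : ℝ) ^ ((n : ℝ) - ε * n / 4) =
        (U : ℝ) ^ ((1 - ε) * n) * (U : ℝ) ^ (ε * n / 4) * (U : ℝ) ^ (ε * n / 2) := by
      rw [← Real.rpow_add hUpos', ← Real.rpow_add hUpos']
      congr 1
      ring
    rw [e1] at h1
    have e2 : 0 < (U : ℝ) ^ ((1 - ε) * n) * (U : ℝ) ^ (ε * n / 4) := by positivity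
    exact le_of_mul_le_mul_left h1 e2
  have h3 : (n : ℝ) ^ (7.5 * (n : ℝ)) ≤ (U : ℝ) ^ (ε * n / 2) := by
    calc (n : ℝ) ^ (7.5 * (n : ℝ)) = ((n : ℝ) ^ (15 / ε)) ^ (ε * n / 2) := by
          rw [← Real.rpow_mul (by linarith)]
          congr 1
          field_simp
          ring
      _ ≤ (U : ℝ) ^ (ε * n / 2) := Real.rpow_le_rpow (by positivity) hU (by positivity)
  have h4 : (n : ℝ) ^ (7 * n) < (n : ℝ) ^ (7.5 * (n : ℝ)) := by
    rw [← Real.rpow_natCast]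
    have e1 : (1 : ℝ) < n := by exact_mod_cast (by omega : 1 < n)
    refine Real.rpow_lt_rpow_of_exponent_lt e1 ?_
    push_cast
    nlinarith
  linarith

end Pool.Agent.H55.FreeIdx
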