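import Pool.Agent.H55.FreeIdx.Count

set_option linter.unusedSectionVars false

namespace Pool.Agent.H55.FreeIdx

open Finset Chebyshev Nat

/-- the sums of two arrays, as a finset -/
def sumset {n U : ℕ} (A B : Fin n → Fin U) : Finset ℕ :=
  univ.image (fun t : Fin n × Fin n => (A t.1 : ℕ) + (B t.2 : ℕ))

/-- the nonzero differences of sums -/
def diffs {n U : ℕ} (A B : Fin n → Fin U) : Finset ℕ :=
  ((sumset A B ×ˢ sumset A B).image (fun t => t.1 - t.2)).filter (fun d => 0 < d)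

theorem sumset_card {n U : ℕ} (A B : Fin n → Fin U) : (sumset A B).card ≤ n ^ 2 := by
  refine Finset.card_image_le.trans ?_
  rw [Finset.card_univ, Fintype.card_prod, Fintype.card_fin, pow_two]

theorem diffs_prod {n U : ℕ} (A B : Fin n → Fin U) (hU : 1 ≤ U) :
    ∏ d ∈ diffs A B, d ≤ (2 * U) ^ (n ^ 4) := by
  have h1 : (diffs A B).card ≤ n ^ 4 := by
    calc (diffs A B).card ≤ _ := Finset.card_filter_le _ _
      _ ≤ _ := Finset.card_image_le
      _ = (sumset A B).card * (sumset A B).card := Finset.card_product _ _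
      _ ≤ n ^ 2 * n ^ 2 := Nat.mul_le_mul (sumset_card A B) (sumset_card A B)
      _ = n ^ 4 := by ring
  calc ∏ d ∈ diffs A B, d ≤ ∏ _d ∈ diffs A B, 2 * U := by
        refine Finset.prod_le_prod' fun d hd => ?_
        obtain ⟨t, ht, rfl⟩ := Finset.mem_image.1 (Finset.mem_filter.1 hd).1
        obtain ⟨p, _, hp⟩ := Finset.mem_image.1 (Finset.mem_product.1 ht).1
        have e1 := (A p.1).isLt
        have e2 := (B p.2).isLt
        omega
    _ = (2 * U) ^ (diffs A B).card := by rw [Finset.prod_const]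
    _ ≤ (2 * U) ^ (n ^ 4) := Nat.pow_le_pow_right (by omega) h1

/-- There is a modulus which separates the sums. -/
theorem exists_modulus {n U N : ℕ} (A B : Fin n → Fin U) (hU : 1 ≤ U)
    (hN : (N + 1) * (2 * U) ^ (n ^ 4) < 2 ^ N) :
    ∃ m : Fin N, ∀ a b a' b', ((A a : ℕ) + (B b : ℕ)) % (m.val + 1) =
      ((A a' : ℕ) + (B b' : ℕ)) % (m.val + 1) → (A a : ℕ) + (B b : ℕ) = (A a' : ℕ) + (B b' : ℕ) := by
  by_contra hcon
  push Not at hcon
  have h1 : N.lcmUpto ∣ ∏ d ∈ diffs A B, d := by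
    rw [Nat.lcmUpto]
    refine Finset.lcm_dvd fun m hm => ?_
    rw [Finset.mem_Icc] at hm
    obtain ⟨a, b, a', b', hmod, hne⟩ := hcon ⟨m - 1, by omega⟩
    have hm1 : m - 1 + 1 = m := by omega
    simp only [hm1] at hmod
    simp only [id_eq]
    rcases Nat.lt_or_gt_of_ne hne with hlt | hlt
    · have hd : m ∣ ((A a' : ℕ) + (B b' : ℕ)) - ((A a : ℕ) + (B b : ℕ)) :=
        (Nat.modEq_iff_dvd' hlt.le).1 hmod
      refine hd.trans (Finset.dvd_prod_of_mem _ (Finset.mem_filter.2 ⟨Finset.mem_image.2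
        ⟨((A a' : ℕ) + (B b' : ℕ), (A a : ℕ) + (B b : ℕ)), Finset.mem_product.2 ⟨?_, ?_⟩, rfl⟩,
        by omega⟩))
      · exact Finset.mem_image.2 ⟨(a', b'), Finset.mem_univ _, rfl⟩
      · exact Finset.mem_image.2 ⟨(a, b), Finset.mem_univ _, rfl⟩
    · have hd : m ∣ ((A a : ℕ) + (B b : ℕ)) - ((A a' : ℕ) + (B b' : ℕ)) :=
        (Nat.modEq_iff_dvd' hlt.le).1 hmod.symm
      refine hd.trans (Finset.dvd_prod_of_mem _ (Finset.mem_filter.2 ⟨Finset.mem_image.2
        ⟨((A a : ℕ) + (B b : ℕ), (A a' : ℕ) + (B b' : ℕ)), Finset.mem_product.2 ⟨?_, ?_⟩, rfl⟩,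
        by omega⟩))
      · exact Finset.mem_image.2 ⟨(a, b), Finset.mem_univ _, rfl⟩
      · exact Finset.mem_image.2 ⟨(a', b'), Finset.mem_univ _, rfl⟩
  have hpos : 0 < ∏ d ∈ diffs A B, d :=
    Finset.prod_pos fun d hd => (Finset.mem_filter.1 hd).2
  have h2 := Nat.le_of_dvd hpos h1
  have h3 := diffs_prod A B hU
  have h4 := two_pow_le_mul_lcmUpto N
  have h5 : (N + 1) * N.lcmUpto ≤ (N + 1) * (2 * U) ^ (n ^ 4) :=
    Nat.mul_le_mul_left _ (h2.trans h3)
  omega

open scoped Classical in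
/-- a pair of indices whose residues fit to the query -/
noncomputable def pick {n N : ℕ} (hn : 1 ≤ n) (α β : Fin n → ℕ) (m : Fin N) (z : ℕ) :
    Fin n × Fin n :=
  if h : ∃ p : Fin n × Fin n, (α p.1 + β p.2) % (m.val + 1) = z % (m.val + 1) then h.choose
  else (⟨0, hn⟩, ⟨0, hn⟩)

theorem pick_spec {n U N : ℕ} (hn : 1 ≤ n) (A B : Fin n → Fin U) (α β : Fin n → ℕ) (m : Fin N)
    (hα : ∀ a, α a % (m.val + 1) = (A a : ℕ) % (m.val + 1))
    (hβ : ∀ b, β b % (m.val + 1) = (B b : ℕ) % (m.val + 1))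
    (hm : ∀ a b a' b', ((A a : ℕ) + (B b : ℕ)) % (m.val + 1) =
      ((A a' : ℕ) + (B b' : ℕ)) % (m.val + 1) →
      (A a : ℕ) + (B b : ℕ) = (A a' : ℕ) + (B b' : ℕ)) (z : ℕ) (hz : IsSum A B z) :
    (A (pick hn α β m z).1 : ℕ) + (B (pick hn α β m z).2 : ℕ) = z := by
  have key : ∀ a b, (α a + β b) % (m.val + 1) = ((A a : ℕ) + (B b : ℕ)) % (m.val + 1) := by
    intro a b
    rw [Nat.add_mod, hα, hβ, ← Nat.add_mod]
  obtain ⟨a, b, hab⟩ := hz
  have hex : ∃ p : Fin n × Fin n, (α p.1 + β p.2) % (m.val + 1) = z % (m.val + 1) :=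
    ⟨(a, b), by rw [key, hab]⟩
  have h1 : pick hn α β m z = hex.choose := by
    unfold pick
    rw [dif_pos hex]
  rw [h1]
  have h2 := hex.choose_spec
  rw [key] at h2
  have h3 : z % (m.val + 1) = ((A a : ℕ) + (B b : ℕ)) % (m.val + 1) := by rw [hab]
  exact (hm _ _ _ _ (h2.trans h3)).trans hab

/-- the type of the index for one probe -/
abbrev Idx1 (n U N : ℕ) : Type := (Fin n → Fin U) × Fin N × (Fin n → Fin N)

/-- the type of the index for two probes -/
abbrev Idx2 (n N : ℕ) : Type := Fin N × (Fin n → Fin N) × (Fin n → Fin N)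

/-- reduce modulo `m + 1` -/
def red {N : ℕ} (m : Fin N) (x : ℕ) : Fin N :=
  ⟨x % (m.val + 1), lt_of_lt_of_le (Nat.mod_lt _ (Nat.succ_pos _)) m.isLt⟩

theorem one_probe {n U N : ℕ} (hn : 1 ≤ n) (hU : 1 ≤ U)
    (hN : (N + 1) * (2 * U) ^ (n ^ 4) < 2 ^ N) :
    Solvable n U n U (U ^ n * (N * N ^ n)) 1 := by
  classical
  have hcard : Fintype.card (Idx1 n U N) = U ^ n * (N * N ^ n) := by
    simp [Idx1]
  let e : Idx1 n U N ≃ Fin (U ^ n * (N * N ^ n)) := Fintype.equivFinOfCardEq hcard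
  refine ⟨{ addr := fun h z _ => (pick hn (fun a => ((e.symm h).1 a : ℕ))
              (fun b => ((e.symm h).2.2 b : ℕ)) (e.symm h).2.1 z).2
            ans := fun h z l => match l with
              | [] => false
              | y :: _ => decide (∃ a, ((e.symm h).1 a : ℕ) + (y : ℕ) = z) }, fun A B => ?_⟩
  obtain ⟨m, hm⟩ := exists_modulus A B hU hN
  refine ⟨e (A, m, fun b => red m (B b)), B, fun z => ?_⟩
  simp only [Scheme.run, Scheme.reads, Equiv.symm_apply_apply, decide_eq_true_eq]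
  constructor
  · rintro ⟨a, ha⟩
    exact ⟨a, _, ha⟩
  · intro hz
    exact ⟨_, pick_spec hn A B _ _ m (fun a => rfl)
      (fun b => Nat.mod_mod _ _) hm z hz⟩

theorem two_probes {n U N : ℕ} (hn : 1 ≤ n) (hU : 1 ≤ U)
    (hN : (N + 1) * (2 * U) ^ (n ^ 4) < 2 ^ N) :
    Solvable n U (n + n) U (N * (N ^ n * N ^ n)) 2 := by
  classical
  have hcard : Fintype.card (Idx2 n N) = N * (N ^ n * N ^ n) := by
    simp [Idx2]
  let e : Idx2 n N ≃ Fin (N * (N ^ n * N ^ n)) := Fintype.equivFinOfCardEq hcard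
  refine ⟨{ addr := fun h z l => match l with
              | [] => Fin.castAdd n (pick hn (fun a => ((e.symm h).2.1 a : ℕ))
                  (fun b => ((e.symm h).2.2 b : ℕ)) (e.symm h).1 z).1
              | _ :: _ => Fin.natAdd n (pick hn (fun a => ((e.symm h).2.1 a : ℕ))
                  (fun b => ((e.symm h).2.2 b : ℕ)) (e.symm h).1 z).2
            ans := fun h z l => match l with
              | [] => false
              | [_] => false
              | y :: x :: _ => decide ((x : ℕ) + (y : ℕ) = z) }, fun A B => ?_⟩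
  obtain ⟨m, hm⟩ := exists_modulus A B hU hN
  refine ⟨e (m, fun a => red m (A a), fun b => red m (B b)), Fin.append A B, fun z => ?_⟩
  simp only [Scheme.run, Scheme.reads, Equiv.symm_apply_apply, decide_eq_true_eq,
    Fin.append_left, Fin.append_right]
  constructor
  · intro h
    exact ⟨_, _, h⟩
  · intro hz
    exact pick_spec hn A B _ _ m (fun a => Nat.mod_mod _ _)
      (fun b => Nat.mod_mod _ _) hm z hz

end Pool.Agent.H55.FreeIdx
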