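import Pool.Agent.H55.FreeIdx.Lower
import Pool.Agent.H55.FreeIdx.Upper

namespace Pool.Agent.H55.FreeIdx

theorem four_mul_lt (m : ℕ) (hm : 5 ≤ m) : 4 * m + 1 < 2 ^ m := by
  induction m, hm using Nat.le_induction with
  | base => norm_num
  | succ k hk ih => rw [pow_succ]; omega

/-- The condition on the modulus bound holds for `N = 2 n⁵`. -/
theorem modulus_ok {n U : ℕ} (hn : 2 ≤ n) (hU : U ≤ 2 ^ n) :
    (2 * n ^ 5 + 1) * (2 * U) ^ (n ^ 4) < 2 ^ (2 * n ^ 5) := by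
  obtain ⟨k, rfl⟩ : ∃ k, n = k + 2 := ⟨n - 2, by omega⟩
  set m : ℕ := (k + 2) ^ 4 * (k + 1) with hm
  have h16 : 16 ≤ m := by
    have h1 : 2 ^ 4 ≤ (k + 2) ^ 4 := Nat.pow_le_pow_left (by omega) 4
    calc 16 = 2 ^ 4 * 1 := by norm_num
      _ ≤ (k + 2) ^ 4 * (k + 1) := Nat.mul_le_mul h1 (by omega)
  have h5 : (k + 2) ^ 5 = (k + 2) ^ 4 + m := by rw [hm]; ring
  have h2 : (k + 2) ^ 5 ≤ 2 * m := by
    rw [h5, hm]
    have : (k + 2) ^ 4 ≤ (k + 2) ^ 4 * (k + 1) := Nat.le_mul_of_pos_right _ (by omega)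
    omega
  have hlt := four_mul_lt m (by omega)
  have hpow : (2 * U) ^ ((k + 2) ^ 4) ≤ 2 ^ ((k + 2) ^ 5 + (k + 2) ^ 4) := by
    calc (2 * U) ^ ((k + 2) ^ 4) ≤ (2 * 2 ^ (k + 2)) ^ ((k + 2) ^ 4) :=
          Nat.pow_le_pow_left (Nat.mul_le_mul_left 2 hU) _
      _ = 2 ^ ((k + 2) ^ 5 + (k + 2) ^ 4) := by
          rw [← pow_succ', ← pow_mul]; congr 1; ring
  calc (2 * (k + 2) ^ 5 + 1) * (2 * U) ^ ((k + 2) ^ 4)
      ≤ (4 * m + 1) * 2 ^ ((k + 2) ^ 5 + (k + 2) ^ 4) := Nat.mul_le_mul (by omega) hpow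
    _ < 2 ^ m * 2 ^ ((k + 2) ^ 5 + (k + 2) ^ 4) := Nat.mul_lt_mul_of_pos_right hlt (by positivity)
    _ = 2 ^ (2 * (k + 2) ^ 5) := by
        rw [← pow_add]; congr 1; rw [h5]; ring

theorem modulus_le {n : ℕ} (hn : 2 ≤ n) : 2 * n ^ 5 ≤ n ^ 6 := by
  calc 2 * n ^ 5 ≤ n * n ^ 5 := Nat.mul_le_mul_right _ hn
    _ = n ^ 6 := by ring

/-- One probe, `n` words, an index of `(1+ε) n` words. -/
theorem upper_one (ε : ℝ) (n U : ℕ) (hε : 0 < ε) (hn : 2 ≤ n) (hU : (n : ℝ) ^ (9 / ε) ≤ U)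
    (hU2 : U ≤ 2 ^ n) :
    ∃ H : ℕ, (H : ℝ) ≤ (U : ℝ) ^ ((1 + ε) * n) ∧ Solvable n U n U H 1 := by
  have hn0 : (0 : ℝ) < n := by exact_mod_cast (by omega : 0 < n)
  have hU0 : (0 : ℝ) < U := lt_of_lt_of_le (Real.rpow_pos_of_pos hn0 _) hU
  have hU1 : 1 ≤ U := by exact_mod_cast hU0
  refine ⟨U ^ n * (2 * n ^ 5 * (2 * n ^ 5) ^ n), ?_, one_probe (by omega) hU1 (modulus_ok hn hU2)⟩
  have h1 : 2 * n ^ 5 * (2 * n ^ 5) ^ n ≤ n ^ (9 * n) := by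
    calc 2 * n ^ 5 * (2 * n ^ 5) ^ n = (2 * n ^ 5) ^ (n + 1) := (pow_succ' _ n).symm
      _ ≤ (n ^ 6) ^ (n + 1) := Nat.pow_le_pow_left (modulus_le hn) _
      _ = n ^ (6 * (n + 1)) := by rw [← pow_mul]
      _ ≤ n ^ (9 * n) := Nat.pow_le_pow_right (by omega) (by omega)
  have h2 : ((n : ℝ)) ^ (9 * n) ≤ (U : ℝ) ^ (ε * n) := by
    have h3 : ((n : ℝ) ^ (9 / ε)) ^ (ε * (n : ℝ)) = (n : ℝ) ^ (9 * n) := by
      rw [← Real.rpow_mul hn0.le, ← Real.rpow_natCast (n : ℝ) (9 * n)]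
      congr 1
      push_cast
      field_simp
    rw [← h3]
    exact Real.rpow_le_rpow (Real.rpow_nonneg hn0.le _) hU (by positivity)
  have h4 : (U : ℝ) ^ ((1 + ε) * n) = (U : ℝ) ^ n * (U : ℝ) ^ (ε * n) := by
    rw [← Real.rpow_natCast (U : ℝ) n, ← Real.rpow_add hU0]
    congr 1; ring
  rw [h4]
  push_cast
  refine mul_le_mul_of_nonneg_left (le_trans ?_ h2) (by positivity)
  exact_mod_cast h1

/-- Two probes, `2n` words, an index of `15 n log₂ n` bits. -/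
theorem upper_two (n U : ℕ) (hn : 2 ≤ n) (hU : 1 ≤ U) (hU2 : U ≤ 2 ^ n) :
    ∃ H : ℕ, H ≤ n ^ (15 * n) ∧ Solvable n U (2 * n) U H 2 := by
  refine ⟨2 * n ^ 5 * ((2 * n ^ 5) ^ n * (2 * n ^ 5) ^ n), ?_, ?_⟩
  · calc 2 * n ^ 5 * ((2 * n ^ 5) ^ n * (2 * n ^ 5) ^ n) = (2 * n ^ 5) ^ (2 * n + 1) := by ring
      _ ≤ (n ^ 6) ^ (2 * n + 1) := Nat.pow_le_pow_left (modulus_le hn) _
      _ = n ^ (6 * (2 * n + 1)) := by rw [← pow_mul]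
      _ ≤ n ^ (15 * n) := Nat.pow_le_pow_right (by omega) (by omega)
  · have := two_probes (n := n) (U := U) (N := 2 * n ^ 5) (by omega) hU (modulus_ok hn hU2)
    rwa [← two_mul] at this

end Pool.Agent.H55.FreeIdx
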